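import Pool.Agent.Q80.AC.Defs

/-!
# Absolutely continuous convolution semigroups: statements of the parts
-/

open MeasureTheory Topology Filter
open scoped ENNReal NNReal ComplexConjugate

noncomputable section

namespace Pool.Agent.Q80.AC

/-! ### A. Exponential series of measures -/

/-- Convolution powers. Induction with `mconv_assoc`, `dirac_one_mconv`, `mconv_dirac_one`; the total mass of
`μ ∗ₘ ν` is the product of the masses (`mconv` is the image of the product measure). -/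
def S_POW : Prop := ∀ (H : Type) [Group H] [MeasurableSpace H] [MeasurableMul₂ H] (σ : Measure H)
  [IsFiniteMeasure σ], (∀ k, IsFiniteMeasure (pw σ k)) ∧ (∀ k, (pw σ k).real Set.univ = σ.real Set.univ ^ k) ∧
  (∀ k l, pw σ (k + l) = pw σ k ∗ₘ pw σ l) ∧ ∀ k, pw σ (k + 1) = pw σ k ∗ₘ σ

/-- Integrals against `ser`. The total mass is `e^(-at) Σ t^k/k! b^k = e^((b-a)t)`, `b` the mass of `σ`, by `S_POW`, so
the measure is finite; then `integral_sum_measure` / `hasSum_integral_measure` and `integral_smul_measure`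
(`ENNReal.toReal_ofReal`, the weights are `≥ 0`). -/
def S_SERINT : Prop := ∀ (H : Type) [Group H] [MeasurableSpace H] [MeasurableMul₂ H] (σ : Measure H)
  [IsFiniteMeasure σ] (a t : ℝ), 0 ≤ t → IsFiniteMeasure (ser σ a t) ∧
  ∀ (f : H → ℝ) (C : ℝ), Measurable f → (∀ x, |f x| ≤ C) →
    HasSum (fun k : ℕ => Real.exp (-(a * t)) * t ^ k / k.factorial * ∫ x, f x ∂(pw σ k)) (∫ x, f x ∂(ser σ a t))

/-- If `a` is the total mass of `σ` then `ser σ a t` is a probability measure, `δ_e` for `t = 0`.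
(Total mass from the exponential series; for `t = 0` only the term `k = 0` is left, `0 ^ 0 = 1`.) -/
def S_SERPROB : Prop := ∀ (H : Type) [Group H] [MeasurableSpace H] [MeasurableMul₂ H] (σ : Measure H)
  [IsFiniteMeasure σ] (t : ℝ), 0 ≤ t → IsProbabilityMeasure (ser σ (σ.real Set.univ) t) ∧
    ser σ (σ.real Set.univ) 0 = Measure.dirac 1

/-- The semigroup property. Expand both sides: `ser σ a t ∗ₘ ser σ a s` is the double sum over `(k, l)` of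
`e^(-a(t+s)) t^k s^l / (k! l!) pw σ (k+l)` (convolution of sums of measures: evaluate on a measurable set with
`lintegral_mconv`, `lintegral_sum_measure`, `lintegral_tsum`), and `Σ_(k+l=N) t^k s^l/(k! l!) = (t+s)^N/N!`
(`add_pow`, `ENNReal.tsum` over antidiagonals: `tsum_sigma'`/`Finset.sum_antidiagonal...`). It may be easier to compare
integrals of bounded measurable functions with `S_SERINT`. -/
def S_SERADD : Prop := ∀ (H : Type) [Group H] [MeasurableSpace H] [MeasurableMul₂ H] (σ : Measure H)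
  [IsFiniteMeasure σ] (a t s : ℝ), 0 ≤ t → 0 ≤ s → ser σ a (t + s) = ser σ a t ∗ₘ ser σ a s

/-- Only the term `k = 0` of the series sees null sets: `pw σ (k+1) = pw σ k ∗ₘ σ ≪ m` by
`mconv_absolutelyContinuous` (left invariance of `m`), and the term `k = 0` has mass `e^(-at)`. -/
def S_SERAC : Prop := ∀ (H : Type) [Group H] [MeasurableSpace H] [MeasurableMul₂ H] (m : Measure H)
  [m.IsMulLeftInvariant] [SFinite m] (σ : Measure H) [IsFiniteMeasure σ] (a t : ℝ), 0 ≤ t → σ ≪ m → ∀ A : Set H,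
  m A = 0 → ser σ a t A ≤ ENNReal.ofReal (Real.exp (-(a * t)))

/-- The unit of the algebra can be moved into the exponential: `e^(-(a+1)t) e^(t(σ+δ)) = e^(-at) e^(tσ)`. By induction
`pw (σ+δ) k = Σ_j C(k,j) pw σ j`, then `Σ_(k ≥ j) t^k/k! C(k,j) = t^j/j! e^t` (write `k = j + i`). Compare integrals of
bounded measurable functions with `S_SERINT`, or work in `ℝ≥0∞` on a measurable set. -/
def S_SHIFT : Prop := ∀ (H : Type) [Group H] [MeasurableSpace H] [MeasurableMul₂ H] (σ : Measure H)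
  [IsFiniteMeasure σ] (a t : ℝ), 0 ≤ t → ser (σ + Measure.dirac 1) (a + 1) t = ser σ a t

/-! ### B. Total variation -/

/-- Convolution and total variation. `∫ f d(μ ∗ₘ ν) = ∬ f(xy) dν(y) dμ(x) = ∬ f(xy) dμ(x) dν(y)` (Fubini, bounded
measurable, finite measures). (1) For fixed `y` the inner integrals against `μ` and `μ'` of `x ↦ f(xy)` differ by at most
`c`. (2) in the same way with the other order. -/
def S_TVC : Prop := ∀ (H : Type) [Group H] [MeasurableSpace H] [MeasurableMul₂ H] (μ μ' ν : Measure H)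
  [IsFiniteMeasure μ] [IsFiniteMeasure μ'] [IsFiniteMeasure ν] (c : ℝ), TV μ μ' c →
  TV (μ ∗ₘ ν) (μ' ∗ₘ ν) (c * ν.real Set.univ) ∧ TV (ν ∗ₘ μ) (ν ∗ₘ μ') (c * ν.real Set.univ)

/-- Powers of `σ + ρ` where `ρ` acts almost as the identity on `σ`. Let `a` be the mass of `σ`, `δ = dirac 1`.
Induction on `k` with the bound `c_k = 2 k (a+2)^k e`. Write `D(μ,ν) ≤ c` for `TV μ ν c`; it is symmetric, additive in
both arguments, has the triangle inequality, and a common finite summand can be cancelled.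
From `D((σ+ρ)^k + δ, (σ+δ)^k + ρ^k) ≤ c_k` convolution with `σ+ρ` on the left gives (`S_TVC`, mass `a+1`)
`D((σ+ρ)^(k+1) + σ + ρ, σ(σ+δ)^k + ρ(σ+δ)^k + σρ^k + ρ^(k+1)) ≤ (a+1) c_k`. Next
(i) `D(ρ(σ+δ)^k + δ, (σ+δ)^k + ρ) ≤ e (a+2)^k`: `(σ+δ)^k = δ + Σ_(j≥1) C(k,j) σ^j`, and
`D(ρ σ^j, σ^j) ≤ e a^(j-1)` by `S_TVC` (`ρσ^j = (ρσ)σ^(j-1)`); `Σ_(j≥1) C(k,j) a^(j-1) ≤ (a+2)^k`; (or prove (i) by
its own induction: `(σ+δ)^(k+1) = σ(σ+δ)^k + (σ+δ)^k`);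
(ii) `D(σρ^k, σ) ≤ k e` by induction (`σρ^(k+1) = (σρ^k)ρ`, hypothesis `D(σρ,σ) ≤ e`).
Adding: `(σ+ρ)^(k+1) + σ + ρ + δ` is within `(a+1)c_k + e(a+2)^k + ke` of
`σ(σ+δ)^k + (σ+δ)^k + ρ + σ + ρ^(k+1) = (σ+δ)^(k+1) + ρ^(k+1) + ρ + σ`; cancel `σ+ρ`. Finally
`(a+1)·2k(a+2)^k + (a+2)^k + k ≤ 2(k+1)(a+2)^(k+1)`. -/
def S_TVP : Prop := ∀ (H : Type) [Group H] [MeasurableSpace H] [MeasurableMul₂ H] (σ ρ : Measure H)
  [IsFiniteMeasure σ] [IsProbabilityMeasure ρ] (e : ℝ), 0 ≤ e → TV (ρ ∗ₘ σ) σ e → TV (σ ∗ₘ ρ) σ e → ∀ k : ℕ,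
  TV (pw (σ + ρ) k + Measure.dirac 1) (pw (σ + Measure.dirac 1) k + pw ρ k)
    (2 * k * (σ.real Set.univ + 2) ^ k * e)

/-- The basic step. `a` = mass of `σ`, `w_k = e^(-(a+1)t) t^k/k!`, `Σ w_k = e^(-at)`. Sum `S_TVP` with the weights
`w_k` (`S_SERINT` for `f` with `|f| ≤ 1`): `ser (σ+ρ) (a+1) t + e^(-at) δ` and `ser (σ+δ) (a+1) t + Σ w_k ρ^k` are within
`Σ w_k 2k(a+2)^k e = 2 e t (a+2) e^t` (as `Σ t^k k b^k / k! = t b e^(tb)`, `b = a+2`). By `S_SHIFT`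
`ser (σ+δ) (a+1) t = ser σ a t`, and `|∫ f| ≤ e^(-at)` for the two remaining terms. -/
def S_STEP : Prop := ∀ (H : Type) [Group H] [MeasurableSpace H] [MeasurableMul₂ H] (σ ρ : Measure H)
  [IsFiniteMeasure σ] [IsProbabilityMeasure ρ] (e t : ℝ), 0 ≤ e → 0 ≤ t → TV (ρ ∗ₘ σ) σ e → TV (σ ∗ₘ ρ) σ e →
  TV (ser (σ + ρ) (σ.real Set.univ + 1) t) (ser σ (σ.real Set.univ) t)
    (2 * Real.exp (-(σ.real Set.univ * t)) + 2 * e * t * (σ.real Set.univ + 2) * Real.exp t)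

/-- Completeness for the total variation distance. Proof with densities: `κ = Σ 2^(-n-1) μ_n`, `μ_n = κ.withDensity g_n`
(`Measure.rnDeriv`), `∫ |g_n - g_(n+1)| dκ ≤ c_n` (test function: the sign), so `g_n` converges in `L¹(κ)` to some
`g ≥ 0` with integral 1; `μ = κ.withDensity g`. Or directly: `μ A = lim μ_n A`, uniformly in `A`. The final bound:
`|∫ f dμ_n - ∫ f dμ_N| ≤ Σ_(n ≤ k < N) c_k` and `∫ f dμ_N → ∫ f dμ`. -/
def S_LIM : Prop := ∀ (X : Type) [MeasurableSpace X] (μ : ℕ → Measure X), (∀ n, IsProbabilityMeasure (μ n)) →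
  ∀ c : ℕ → ℝ, (∀ n, 0 ≤ c n) → Summable c → (∀ n, TV (μ (n + 1)) (μ n) (c n)) →
  ∃ ν : Measure X, IsProbabilityMeasure ν ∧ ∀ n, TV (μ n) ν (∑' k, c (n + k))

/-! ### C. Choice of the jumps -/

/-- Continuity of translations in `L¹`. Let `ν = g m`, `g ∈ L¹(m)`. For `s ∈ H` the measure `δ_s ∗ ν` has the density
`g(s⁻¹x)`, and `∫ |g(s⁻¹x) - g(x)| dm(x) → 0` as `s → e` (`Filter.Tendsto.compMeasurePreservingLp` with `p = 1`,
compare `lam_cont`). `∫ f d(ρ∗ν) - ∫ f dν = ∫ (∫ f(sx) dν(x) - ∫ f(x) dν(x)) dρ(s)`, and the inner difference is at most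
`∫ |g(s⁻¹x) - g(x)| dm(x)`. -/
def S_TRL : Prop := ∀ (H : Type) [Group H] [TopologicalSpace H] [IsTopologicalGroup H] [LocallyCompactSpace H]
  [SecondCountableTopology H] [T2Space H] [MeasurableSpace H] [BorelSpace H] (m : Measure H) [m.IsHaarMeasure]
  (ν : Measure H) [IsFiniteMeasure ν], ν ≪ m → ∀ e : ℝ, 0 < e → ∃ V ∈ 𝓝 (1 : H), ∀ ρ : Measure H,
  IsProbabilityMeasure ρ → ρ Vᶜ = 0 → TV (ρ ∗ₘ ν) ν e

/-- The same on the right, from `S_TRL` by inversion: the image of `ν ∗ₘ ρ` under `x ↦ x⁻¹` is `ρ⁻¹ ∗ₘ ν⁻¹`; `ν⁻¹ ≪ m`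
since inversion preserves the null sets of a Haar measure (`Measure.quasiMeasurePreserving_inv` or
`inv_absolutelyContinuous`); `TV` is invariant under images by measurable bijections; take `V⁻¹`. -/
def S_TRR : Prop := ∀ (H : Type) [Group H] [TopologicalSpace H] [IsTopologicalGroup H] [LocallyCompactSpace H]
  [SecondCountableTopology H] [T2Space H] [MeasurableSpace H] [BorelSpace H] (m : Measure H) [m.IsHaarMeasure]
  (ν : Measure H) [IsFiniteMeasure ν], ν ≪ m → ∀ e : ℝ, 0 < e → ∃ V ∈ 𝓝 (1 : H), ∀ ρ : Measure H,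
  IsProbabilityMeasure ρ → ρ Vᶜ = 0 → TV (ν ∗ₘ ρ) ν e

/-- Symmetric absolutely continuous probability measures. (1) `m` is sigma-finite, take a finite measure with the same
null sets (`m.toFinite` or an exponential density), normalise, `κ`, and `ρ = (κ + κ⁻¹)/2`; `κ⁻¹ ≪ m` as inversion
preserves the null sets of `m`. (2) Shrink `V` to an open symmetric neighbourhood `V0` with finite measure, `m V0 > 0`;
`κ = m|V0 / m V0`, `ρ = (κ + κ⁻¹)/2`. -/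
def S_SYM : Prop := ∀ (H : Type) [Group H] [TopologicalSpace H] [IsTopologicalGroup H] [LocallyCompactSpace H]
  [SecondCountableTopology H] [T2Space H] [MeasurableSpace H] [BorelSpace H] (m : Measure H) [m.IsHaarMeasure],
  (∃ ρ : Measure H, IsProbabilityMeasure ρ ∧ ρ ≪ m ∧ m ≪ ρ ∧ ρ.map (fun x => x⁻¹) = ρ) ∧
  ∀ V ∈ 𝓝 (1 : H), ∃ ρ : Measure H, IsProbabilityMeasure ρ ∧ ρ ≪ m ∧ ρ Vᶜ = 0 ∧ ρ.map (fun x => x⁻¹) = ρ

/-- The sequence of jumps, by strong recursion from `S_TRL`, `S_TRR`, `S_SYM`: `ρ_0` is the measure of `S_SYM` (1) (for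
`n = 0` the measure `sg ρ 0` is zero and the two bounds are trivial), and for `n ≥ 1`, `ρ_0, ..., ρ_(n-1)` given,
`sg ρ n` is finite and `≪ m`; intersect the neighbourhoods of `S_TRL`, `S_TRR` for it with `W n` and use `S_SYM` (2).
(The recursion needs the whole history: define a function on `List (Measure H)` or use
`exists_seq_of_forall_finset_exists`-like tools, or `Nat.strongRec`.) -/
def S_SEQ : Prop := ∀ (H : Type) [Group H] [TopologicalSpace H] [IsTopologicalGroup H] [LocallyCompactSpace H]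
  [SecondCountableTopology H] [T2Space H] [MeasurableSpace H] [BorelSpace H] (m : Measure H) [m.IsHaarMeasure]
  (W : ℕ → Set H), (∀ n, W n ∈ 𝓝 (1 : H)) → ∃ ρ : ℕ → Measure H, (∀ n, IsProbabilityMeasure (ρ n)) ∧
  (∀ n, ρ n ≪ m) ∧ (∀ n, (ρ n).map (fun x => x⁻¹) = ρ n) ∧ m ≪ ρ 0 ∧ (∀ n, 1 ≤ n → ρ n (W n)ᶜ = 0) ∧
  ∀ n, TV (ρ n ∗ₘ sg ρ n) (sg ρ n) ((1 / 2) ^ n / (n + 2)) ∧ TV (sg ρ n ∗ₘ ρ n) (sg ρ n) ((1 / 2) ^ n / (n + 2))

/-- Length functions. For a continuous `f : H → [0,1]` with compact support, `f(e) = 1`, `f = 0` off a neighbourhood of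
`e` (Urysohn), put `L_f(g) = sup_x |f(g⁻¹x) - f(x)|`. `L_f(e) = 0`; `L_f(gh) ≤ L_f(g) + L_f(h)`
(`f(h⁻¹g⁻¹x) - f(x) = (f(h⁻¹y) - f(y)) + (f(g⁻¹x) - f(x))`, `y = g⁻¹x`); continuity at `e` is uniform continuity
(`HasCompactSupport.uniformContinuous_of_continuous` or `Continuous.is_zero...`; in Mathlib
`HasCompactSupport.uniformContinuous...` / `IsCompact.uniformContinuousAt`), and then everywhere by subadditivity
(`|L(gh) - L(g)| ≤ max(L(h), L(h⁻¹))`, `L(h⁻¹) = L(h)`). If `g` is not in the support of `f` then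
`L_f(g) ≥ |f(g⁻¹g) - f(g)| = 1`. Take a countable base of neighbourhoods of `e`. -/
def S_LEN : Prop := ∀ (H : Type) [Group H] [TopologicalSpace H] [IsTopologicalGroup H] [LocallyCompactSpace H]
  [SecondCountableTopology H] [T2Space H], ∃ L : ℕ → H → ℝ, (∀ j, Continuous (L j)) ∧ (∀ j x, 0 ≤ L j x ∧ L j x ≤ 2) ∧
  (∀ j, L j 1 = 0) ∧ (∀ j x y, L j (x * y) ≤ L j x + L j y) ∧ ∀ W ∈ 𝓝 (1 : H), ∃ j, ∀ x, x ∉ W → 1 ≤ L j x

/-! ### D. The limit semigroup -/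

/-- Integrals of length functions: `∫ L d(pw σ k) ≤ k a^(k-1) ∫ L dσ` by induction (`∬ L(xy) ≤ ∬ (L(x) + L(y))`), and
`e^(-at) Σ t^k/k! k a^(k-1) = t` (`a` the mass of `σ`; use `S_SERINT`). -/
def S_LENINT : Prop := ∀ (H : Type) [Group H] [MeasurableSpace H] [MeasurableMul₂ H] (σ : Measure H)
  [IsFiniteMeasure σ] (L : H → ℝ), Measurable L → (∀ x, 0 ≤ L x ∧ L x ≤ 2) → L 1 = 0 →
  (∀ x y, L (x * y) ≤ L x + L y) → ∀ t : ℝ, 0 ≤ t →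
  ∫ x, L x ∂(ser σ (σ.real Set.univ) t) ≤ t * ∫ x, L x ∂σ

/-- Criterion for `w^*`-continuity. Given `f` and `ε` take a neighbourhood `W` with `|f - f(e)| ≤ ε` on it and `j` from
the last hypothesis on `L`; `μ_t(Wᶜ) ≤ ∫ L_j dμ_t ≤ C_j t`, and
`|∫ f dμ_t - f(e)| ≤ ∫ |f - f(e)| dμ_t ≤ ε + 2 sup|f| μ_t(Wᶜ)` (`f` is bounded: continuous and zero at infinity;
enlarge to the measurable set `{L_j ≥ 1}`). -/
def S_WC : Prop := ∀ (H : Type) [Group H] [TopologicalSpace H] [IsTopologicalGroup H] [LocallyCompactSpace H]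
  [SecondCountableTopology H] [T2Space H] [MeasurableSpace H] [BorelSpace H] (L : ℕ → H → ℝ),
  (∀ j, Continuous (L j)) → (∀ j x, 0 ≤ L j x ∧ L j x ≤ 2) → (∀ W ∈ 𝓝 (1 : H), ∃ j, ∀ x, x ∉ W → 1 ≤ L j x) →
  ∀ μ : ℝ → Measure H, (∀ t, 0 ≤ t → IsProbabilityMeasure (μ t)) →
  (∀ j, ∃ C : ℝ, ∀ t, 0 ≤ t → ∫ x, L j x ∂(μ t) ≤ C * t) → WCont μ

/-- Existence of the limit, from `S_SERPROB`, `S_STEP`, `S_LIM`. The mass of `sg ρ n` is `n` and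
`sg ρ (n+1) = sg ρ n + ρ n`. For `t > 0` the bounds `2e^(-nt) + 2 (1/2)^n t e^t` of `S_STEP` (`e = (1/2)^n/(n+2)`) are
summable, the limit is given by `S_LIM`, and its bounds are tails of a convergent series. For `t = 0` put `δ_e`
(also for `t < 0`). -/
def S_CONV : Prop := ∀ (H : Type) [Group H] [MeasurableSpace H] [MeasurableMul₂ H] (ρ : ℕ → Measure H),
  (∀ n, IsProbabilityMeasure (ρ n)) →
  (∀ n, TV (ρ n ∗ₘ sg ρ n) (sg ρ n) ((1 / 2) ^ n / (n + 2)) ∧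
    TV (sg ρ n ∗ₘ ρ n) (sg ρ n) ((1 / 2) ^ n / (n + 2))) →
  ∃ μ : ℝ → Measure H, μ 0 = Measure.dirac 1 ∧ (∀ t, 0 ≤ t → IsProbabilityMeasure (μ t)) ∧
    ∀ t, 0 ≤ t → ∃ c : ℕ → ℝ, Tendsto c atTop (𝓝 0) ∧ ∀ n, TV (Pn ρ n t) (μ t) (c n)

/-- The limit is a convolution semigroup: `Pn ρ n (t+s) = Pn ρ n t ∗ₘ Pn ρ n s` (`S_SERADD`), pass to the limit with
`S_TVC` (masses one): `TV (μ (t+s)) (μ t ∗ₘ μ s) c` for every `c > 0`, and measures with this are equal (indicators). -/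
def S_SG : Prop := ∀ (H : Type) [Group H] [MeasurableSpace H] [MeasurableMul₂ H] (ρ : ℕ → Measure H),
  (∀ n, IsProbabilityMeasure (ρ n)) → ∀ μ : ℝ → Measure H, μ 0 = Measure.dirac 1 →
  (∀ t, 0 ≤ t → IsProbabilityMeasure (μ t)) →
  (∀ t, 0 ≤ t → ∃ c : ℕ → ℝ, Tendsto c atTop (𝓝 0) ∧ ∀ n, TV (Pn ρ n t) (μ t) (c n)) → IsConvSemigroup μ

/-- The limit is absolutely continuous for `t > 0`: `m A = 0` gives (measurable hull) `Pn ρ n t A ≤ e^(-nt)` by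
`S_SERAC` (`sg ρ n ≪ m`), so `μ_t(A) ≤ e^(-nt) + c n → 0`. -/
def S_ACL : Prop := ∀ (H : Type) [Group H] [MeasurableSpace H] [MeasurableMul₂ H] (m : Measure H)
  [m.IsMulLeftInvariant] [SFinite m] (ρ : ℕ → Measure H), (∀ n, IsProbabilityMeasure (ρ n)) → (∀ n, ρ n ≪ m) →
  ∀ μ : ℝ → Measure H, (∀ t, 0 ≤ t → IsProbabilityMeasure (μ t)) →
  (∀ t, 0 ≤ t → ∃ c : ℕ → ℝ, Tendsto c atTop (𝓝 0) ∧ ∀ n, TV (Pn ρ n t) (μ t) (c n)) → ∀ t, 0 < t → μ t ≪ m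

/-- The limit is `w^*`-continuous, from `S_WC` and `S_LENINT`: for `j` fixed
`∫ L_j d(Pn ρ n t) ≤ t Σ_(k<n) ∫ L_j dρ_k ≤ t (2 (j+1) + Σ_k 2^(-k)) ≤ t (2 j + 4)` (for `k ≥ max(j,1)` the measure
`ρ_k` lives on `{L_j ≤ 2^(-k)}`), and this passes to the limit (`L_j/2` is a test function for `TV`). -/
def S_WCL : Prop := ∀ (H : Type) [Group H] [TopologicalSpace H] [IsTopologicalGroup H] [LocallyCompactSpace H]
  [SecondCountableTopology H] [T2Space H] [MeasurableSpace H] [BorelSpace H] (L : ℕ → H → ℝ),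
  (∀ j, Continuous (L j)) → (∀ j x, 0 ≤ L j x ∧ L j x ≤ 2) → (∀ j, L j 1 = 0) →
  (∀ j x y, L j (x * y) ≤ L j x + L j y) → (∀ W ∈ 𝓝 (1 : H), ∃ j, ∀ x, x ∉ W → 1 ≤ L j x) →
  ∀ ρ : ℕ → Measure H, (∀ n, IsProbabilityMeasure (ρ n)) →
  (∀ n, 1 ≤ n → ρ n {x | ∀ j, j ≤ n → L j x ≤ (1 / 2) ^ n}ᶜ = 0) →
  ∀ μ : ℝ → Measure H, (∀ t, 0 ≤ t → IsProbabilityMeasure (μ t)) →
  (∀ t, 0 ≤ t → ∃ c : ℕ → ℝ, Tendsto c atTop (𝓝 0) ∧ ∀ n, TV (Pn ρ n t) (μ t) (c n)) → WCont μ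

/-! ### E. Operators on `L²(H)` -/

/-- `λ(μ ∗ ν) = λ(μ) λ(ν)`: `lam m (s * r) = lam m s ∘ lam m r` and Fubini (`integral_prod`, or
`MeasureTheory.Measure.mconv` as an image measure and `integral_map`); a continuous linear map commutes with the Bochner
integral. -/
def S_LMUL : Prop := ∀ (H : Type) [Group H] [TopologicalSpace H] [IsTopologicalGroup H] [LocallyCompactSpace H]
  [SecondCountableTopology H] [T2Space H] [MeasurableSpace H] [BorelSpace H] (m : Measure H) [m.IsHaarMeasure]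
  (μ ν : Measure H) [IsFiniteMeasure μ] [IsFiniteMeasure ν] [IsFiniteMeasure (μ ∗ₘ ν)],
  lamM m (μ ∗ₘ ν) = (lamM m μ).comp (lamM m ν)

/-- Norm estimates. (1) `‖λ(μ)‖ ≤ μ(H)`. (2) For unit vectors `ξ, η` choose `|z| = 1` with
`z⟨η, (λ(μ) - λ(ν))ξ⟩ = |⟨η, (λ(μ) - λ(ν))ξ⟩|`; this is `∫ f dμ - ∫ f dν` with `f(s) = Re(z ⟨η, λ_s ξ⟩) ∈ [-1,1]`
continuous. -/
def S_LTV : Prop := ∀ (H : Type) [Group H] [TopologicalSpace H] [IsTopologicalGroup H] [LocallyCompactSpace H]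
  [SecondCountableTopology H] [T2Space H] [MeasurableSpace H] [BorelSpace H] (m : Measure H) [m.IsHaarMeasure]
  (μ ν : Measure H) [IsFiniteMeasure μ] [IsFiniteMeasure ν] (c : ℝ), 0 ≤ c →
  ‖lamM m μ‖ ≤ μ.real Set.univ ∧ (TV μ ν c → ‖lamM m μ - lamM m ν‖ ≤ c)

/-- Symmetric measures give self-adjoint operators: `⟨λ_s ξ, η⟩ = ⟨ξ, λ_(s⁻¹) η⟩` (`lam m s` is an isometry with inverse
`lam m s⁻¹`), integrate and substitute `s ↦ s⁻¹`. -/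
def S_LSA : Prop := ∀ (H : Type) [Group H] [TopologicalSpace H] [IsTopologicalGroup H] [LocallyCompactSpace H]
  [SecondCountableTopology H] [T2Space H] [MeasurableSpace H] [BorelSpace H] (m : Measure H) [m.IsHaarMeasure]
  (μ : Measure H) [IsFiniteMeasure μ], μ.map (fun x => x⁻¹) = μ → ∀ ξ η : Lp ℂ 2 m,
  inner ℂ (lamM m μ ξ) η = inner ℂ ξ (lamM m μ η)

/-- `λ` of the exponential series: `λ(pw σ k) = λ(σ)^k` (`S_LMUL`, `λ(δ_e) = 1`), the series converges in norm since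
`‖λ(σ)‖ ≤ σ(H)`, and its sum is `λ(ser σ a t)`: test with vectors, `∫ λ_s ξ d(ser)(s) = Σ weight ∫ λ_s ξ d(pw σ k)(s)`
(`hasSum_integral_measure` and `integral_smul_measure`). -/
def S_LSER : Prop := ∀ (H : Type) [Group H] [TopologicalSpace H] [IsTopologicalGroup H] [LocallyCompactSpace H]
  [SecondCountableTopology H] [T2Space H] [MeasurableSpace H] [BorelSpace H] (m : Measure H) [m.IsHaarMeasure]
  (σ : Measure H) [IsFiniteMeasure σ] (a t : ℝ), 0 ≤ t → ∀ [IsFiniteMeasure (ser σ a t)],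
  HasSum (fun k : ℕ => ((Real.exp (-(a * t)) * t ^ k / k.factorial : ℝ) : ℂ) • (lamM m σ) ^ k) (lamM m (ser σ a t))

/-- Energy inequality. `S` self-adjoint with `‖S‖ ≤ a`, `A = a - S ≥ 0`, `U = e^(-tA)`. Then
`⟨A U η, U η⟩ = ⟨A e^(-2tA) η, η⟩ ≤ ‖η‖²/(2 e t) ≤ ‖η‖²/t`. By the continuous functional calculus
(`‖A e^(-2tA)‖ ≤ sup_(x ≥ 0) x e^(-2tx)`), or: `F(s) = ‖e^(-sA)η‖²` has `F' = -2⟨A e^(-sA)η, e^(-sA)η⟩`, which is
increasing (`F'' = 4‖A e^(-sA)η‖² ≥ 0`), so `t·(-F'(t)) ≤ F(0) - F(t) ≤ ‖η‖²`. `U` is `exp(-ta) • NormedSpace.exp (t S)`. -/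
def S_EN1 : Prop := ∀ (E : Type) [NormedAddCommGroup E] [InnerProductSpace ℂ E] [CompleteSpace E]
  (S U : E →L[ℂ] E) (a t : ℝ), 0 ≤ a → 0 < t → ‖S‖ ≤ a → (∀ x y, inner ℂ (S x) y = inner ℂ x (S y)) →
  HasSum (fun k : ℕ => ((Real.exp (-(a * t)) * t ^ k / k.factorial : ℝ) : ℂ) • S ^ k) U → ∀ η : E,
  a * ‖U η‖ ^ 2 - (inner ℂ (S (U η)) (U η)).re ≤ ‖η‖ ^ 2 / t

/-- `‖λ_s ξ - ξ‖² = 2‖ξ‖² - 2 Re⟨λ_s ξ, ξ⟩`, integrate over the probability measure `ρ`. -/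
def S_EN2 : Prop := ∀ (H : Type) [Group H] [TopologicalSpace H] [IsTopologicalGroup H] [LocallyCompactSpace H]
  [SecondCountableTopology H] [T2Space H] [MeasurableSpace H] [BorelSpace H] (m : Measure H) [m.IsHaarMeasure]
  (ρ : Measure H) [IsProbabilityMeasure ρ] (ξ : Lp ℂ 2 m),
  ∫ s, ‖lam m s ξ - ξ‖ ^ 2 ∂ρ = 2 * (‖ξ‖ ^ 2 - (inner ℂ (lamM m ρ ξ) ξ).re)

/-- Domination: `ω = h κ` with `h ∈ L¹(κ)`; `C` with `∫_(h > C) h dκ ≤ ε`, then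
`∫ g dω ≤ ∫_(h > C) h dκ + C ∫ g dκ`. -/
def S_DOM : Prop := ∀ (X : Type) [MeasurableSpace X] (ω κ : Measure X) [IsFiniteMeasure ω] [IsFiniteMeasure κ],
  ω ≪ κ → ∀ ε : ℝ, 0 < ε → ∃ C : ℝ, 0 ≤ C ∧ ∀ g : X → ℝ, Measurable g → (∀ x, 0 ≤ g x ∧ g x ≤ 1) →
  ∫ x, g x ∂ω ≤ ε + C * ∫ x, g x ∂κ

/-- Uniform rate, from `S_LMUL`, `S_LTV`, `S_LSA`, `S_LSER`, `S_EN1`, `S_EN2`, `S_DOM`, `S_SERPROB`. Let `n ≥ 1`,
`S = λ(sg ρ n)`, `U = λ(Pn ρ n t)`, `ξ = Uη`, `‖η‖ ≤ 1`. `(λ(ω) - 1)ξ = ∫ (λ_s ξ - ξ) dω(s)`, so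
`‖(λ(ω) - 1)ξ‖² ≤ ∫ ‖λ_s ξ - ξ‖² dω(s)` (Jensen / Cauchy-Schwarz) and, as `‖λ_s ξ - ξ‖²/4 ∈ [0,1]`, `S_DOM` with
`ε/4` gives `≤ ε + C ∫ ‖λ_s ξ - ξ‖² dρ_0(s) = ε + 2C(‖ξ‖² - Re⟨λ(ρ_0)ξ,ξ⟩)` (`S_EN2`)
`≤ ε + 2C(n‖ξ‖² - Re⟨Sξ,ξ⟩)` (each `‖ξ‖² - Re⟨λ(ρ_k)ξ,ξ⟩ ≥ 0`, `λ(sg ρ n) = Σ_(k<n) λ(ρ_k)`) `≤ ε + 2C/t` by `S_EN1`
(with `a = n`, the mass of `sg ρ n`). -/
def S_RATE : Prop := ∀ (H : Type) [Group H] [TopologicalSpace H] [IsTopologicalGroup H] [LocallyCompactSpace H]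
  [SecondCountableTopology H] [T2Space H] [MeasurableSpace H] [BorelSpace H] (m : Measure H) [m.IsHaarMeasure]
  (ρ : ℕ → Measure H), (∀ n, IsProbabilityMeasure (ρ n)) → (∀ n, (ρ n).map (fun x => x⁻¹) = ρ n) →
  ∀ (ω : Measure H) [IsProbabilityMeasure ω], ω ≪ ρ 0 → ∀ ε : ℝ, 0 < ε → ∃ C : ℝ, 0 ≤ C ∧ ∀ (n : ℕ) (t : ℝ),
  1 ≤ n → 0 < t → ∀ [IsFiniteMeasure (Pn ρ n t)] [IsFiniteMeasure (ω ∗ₘ Pn ρ n t)],
  ‖lamM m (ω ∗ₘ Pn ρ n t) - lamM m (Pn ρ n t)‖ ^ 2 ≤ ε + C / t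

/-- In an amenable group `‖λ(μ)‖ = 1` for a probability measure `μ`. `≤ 1`: `S_LTV`. Given `ε`, take a compact set `K`
with `μ(Kᶜ) ≤ ε` (inner regularity), `f` from Reiter's condition for `K`, `ε²`, and `ξ = √f`, `‖ξ‖₂ = 1`. As
`|√a - √b|² ≤ |a - b|`, `‖λ_s ξ - ξ‖₂² ≤ ∫ |f(s⁻¹x) - f(x)| dm ≤ ε²` for `s ∈ K`. Hence `‖λ(μ)ξ - ξ‖ ≤ ε + 2ε`, so
`‖λ(μ)‖ ≥ 1 - 3ε`. -/
def S_AMN : Prop := ∀ (H : Type) [Group H] [TopologicalSpace H] [IsTopologicalGroup H] [LocallyCompactSpace H]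
  [SecondCountableTopology H] [T2Space H] [MeasurableSpace H] [BorelSpace H] (m : Measure H) [m.IsHaarMeasure]
  (μ : Measure H) [IsProbabilityMeasure μ], Reiter m → ‖lamM m μ‖ = 1

end Pool.Agent.Q80.AC
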