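import Pool.Agent.Q80.AC.Stm

open MeasureTheory Topology Filter
open scoped ENNReal NNReal ComplexConjugate

namespace Pool.Agent.Q80.AC.RATEp

open Pool.Agent.Q80.AC

theorem sq_int_le {X : Type} [MeasurableSpace X] (ω : Measure X) [IsProbabilityMeasure ω] (f : X → ℝ)
    (hf : AEStronglyMeasurable f ω) (C : ℝ) (hC : ∀ x, |f x| ≤ C) : (∫ x, f x ∂ω) ^ 2 ≤ ∫ x, f x ^ 2 ∂ω := by
  have h1 : Integrable f ω := Integrable.of_bound hf C (ae_of_all _ fun x => by simpa using hC x)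
  have h2 : Integrable (fun x => f x ^ 2) ω := by
    refine Integrable.of_bound (hf.pow 2) (C ^ 2) (ae_of_all _ fun x => ?_)
    rw [Real.norm_eq_abs, abs_pow]
    exact pow_le_pow_left₀ (abs_nonneg _) (hC x) 2
  obtain ⟨c, hc⟩ : ∃ c, c = ∫ x, f x ∂ω := ⟨_, rfl⟩
  have h3 : 0 ≤ ∫ x, (f x - c) ^ 2 ∂ω := integral_nonneg fun x => sq_nonneg _
  have h4 : ∫ x, (f x - c) ^ 2 ∂ω = ∫ x, f x ^ 2 ∂ω - 2 * c * c + c ^ 2 := by
    have e : (fun x => (f x - c) ^ 2) = fun x => f x ^ 2 - 2 * c * f x + c ^ 2 := by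
      funext x
      ring
    have hA : Integrable (fun x => f x ^ 2 - 2 * c * f x) ω := h2.sub (h1.const_mul _)
    rw [e, integral_add hA (integrable_const _), integral_sub h2 (h1.const_mul _),
      integral_const_mul, ← hc]
    simp
  rw [← hc]
  nlinarith

variable {H : Type} [Group H] [TopologicalSpace H] [IsTopologicalGroup H] [LocallyCompactSpace H]
  [SecondCountableTopology H] [T2Space H] [MeasurableSpace H] [BorelSpace H]

theorem core (m : Measure H) [m.IsHaarMeasure] (ω : Measure H) [IsProbabilityMeasure ω] (ξ : Lp ℂ 2 m) :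
    ‖lamM m ω ξ - ξ‖ ^ 2 ≤ ∫ s, ‖lam m s ξ - ξ‖ ^ 2 ∂ω := by
  have hc : Continuous fun s : H => lam m s ξ - ξ := (lam_cont m ξ).sub continuous_const
  have e : lamM m ω ξ - ξ = ∫ s, (lam m s ξ - ξ) ∂ω := by
    rw [integral_sub (lam_int m ω ξ) (integrable_const _), lamM_apply]
    simp
  have hb : ∀ s, |‖lam m s ξ - ξ‖| ≤ 2 * ‖ξ‖ := fun s => by
    rw [abs_of_nonneg (norm_nonneg _)]
    refine (norm_sub_le _ _).trans ?_
    rw [(lam m s).norm_map]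
    linarith
  rw [e]
  have h1 : ‖∫ s, (lam m s ξ - ξ) ∂ω‖ ≤ ∫ s, ‖lam m s ξ - ξ‖ ∂ω := norm_integral_le_integral_norm _
  exact (pow_le_pow_left₀ (norm_nonneg _) h1 2).trans
    (sq_int_le ω _ hc.norm.aestronglyMeasurable _ hb)

theorem lamM_sg (m : Measure H) [m.IsHaarMeasure] (ρ : ℕ → Measure H) (hρ : ∀ n, IsProbabilityMeasure (ρ n))
    (n : ℕ) [IsFiniteMeasure (sg ρ n)] (ξ : Lp ℂ 2 m) :
    lamM m (sg ρ n) ξ = ∑ k ∈ Finset.range n, ∫ s, lam m s ξ ∂(ρ k) := by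
  rw [lamM_apply]
  unfold sg
  rw [integral_finsetSum_measure]
  intro k _
  have := hρ k
  exact lam_int m (ρ k) ξ

theorem t_RATE (h1 : S_LMUL) (h2 : S_LTV) (h3 : S_LSA) (h4 : S_LSER) (h5 : S_EN1) (h6 : S_EN2) (h7 : S_DOM)
    (h8 : S_SERPROB) : S_RATE := by
  intro H _ _ _ _ _ _ _ _ m _ ρ hρ hsym ω _ hω ε hε
  have hρ0 := hρ 0
  obtain ⟨C, hC0, hC⟩ := h7 H ω (ρ 0) hω (ε / 4) (by positivity)
  refine ⟨2 * C, by positivity, fun n t hn ht => ?_⟩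
  intro _ _
  have hsf : IsFiniteMeasure (sg ρ n) := by
    unfold sg
    infer_instance
  have hmass : (sg ρ n).real Set.univ = n := by
    unfold sg
    rw [measureReal_def, Measure.finsetSum_apply]
    simp
  have hPp : IsProbabilityMeasure (Pn ρ n t) := by
    have h := (h8 H (sg ρ n) t ht.le).1
    rw [hmass] at h
    exact h
  have hS : ‖lamM m (sg ρ n)‖ ≤ n := by
    have := (h2 H m (sg ρ n) (sg ρ n) 0 le_rfl).1
    rwa [hmass] at this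
  have hsg : (sg ρ n).map (fun x => x⁻¹) = sg ρ n := by
    have hm : Measurable fun x : H => x⁻¹ := measurable_inv
    refine Measure.ext fun A hA => ?_
    rw [Measure.map_apply hm hA]
    unfold sg
    rw [Measure.finsetSum_apply, Measure.finsetSum_apply]
    refine Finset.sum_congr rfl fun k _ => ?_
    rw [← Measure.map_apply hm hA, hsym k]
  have hU1 : ‖lamM m (Pn ρ n t)‖ ≤ 1 := by
    have := (h2 H m (Pn ρ n t) (Pn ρ n t) 0 le_rfl).1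
    rwa [probReal_univ] at this
  have key : ∀ η : Lp ℂ 2 m, ‖(lamM m (ω ∗ₘ Pn ρ n t) - lamM m (Pn ρ n t)) η‖ ^ 2 ≤
      (ε + 2 * C / t) * ‖η‖ ^ 2 := by
    intro η
    obtain ⟨ξ, hξ⟩ : ∃ ξ, ξ = lamM m (Pn ρ n t) η := ⟨_, rfl⟩
    have e1 : (lamM m (ω ∗ₘ Pn ρ n t) - lamM m (Pn ρ n t)) η = lamM m ω ξ - ξ := by
      rw [h1 H m ω (Pn ρ n t), hξ]
      rfl
    rw [e1]
    have hξη : ‖ξ‖ ≤ ‖η‖ := by
      rw [hξ]
      refine ((lamM m (Pn ρ n t)).le_opNorm η).trans ?_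
      nlinarith [norm_nonneg η]
    have hcont : Continuous fun s : H => ‖lam m s ξ - ξ‖ ^ 2 :=
      (((lam_cont m ξ).sub continuous_const).norm).pow 2
    have a1 : ∫ s, ‖lam m s ξ - ξ‖ ^ 2 ∂ω ≤ ε * ‖ξ‖ ^ 2 + C * ∫ s, ‖lam m s ξ - ξ‖ ^ 2 ∂(ρ 0) := by
      rcases eq_or_lt_of_le (norm_nonneg ξ) with h0 | h0
      · have : ξ = 0 := norm_eq_zero.1 h0.symm
        rw [this]
        simp
      · have h9 := hC (fun s => ‖lam m s ξ - ξ‖ ^ 2 / (4 * ‖ξ‖ ^ 2)) (hcont.div_const _).measurable ?_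
        · rw [integral_div, integral_div] at h9
          have h10 : 0 < 4 * ‖ξ‖ ^ 2 := by positivity
          rw [div_le_iff₀ h10] at h9
          have e2 : (ε / 4 + C * ((∫ s, ‖lam m s ξ - ξ‖ ^ 2 ∂(ρ 0)) / (4 * ‖ξ‖ ^ 2))) * (4 * ‖ξ‖ ^ 2) =
            ε * ‖ξ‖ ^ 2 + C * ∫ s, ‖lam m s ξ - ξ‖ ^ 2 ∂(ρ 0) := by
            field_simp
          linarith
        · intro s
          refine ⟨by positivity, ?_⟩
          rw [div_le_one (by positivity)]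
          have h11 : ‖lam m s ξ - ξ‖ ≤ 2 * ‖ξ‖ := by
            refine (norm_sub_le _ _).trans ?_
            rw [(lam m s).norm_map]
            linarith
          calc ‖lam m s ξ - ξ‖ ^ 2 ≤ (2 * ‖ξ‖) ^ 2 := pow_le_pow_left₀ (norm_nonneg _) h11 2
            _ = 4 * ‖ξ‖ ^ 2 := by ring
    have a2 := h6 H m (ρ 0) ξ
    have a3 : (inner ℂ (lamM m (sg ρ n) ξ) ξ : ℂ).re =
        ∑ k ∈ Finset.range n, (inner ℂ (∫ s, lam m s ξ ∂(ρ k)) ξ : ℂ).re := by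
      rw [lamM_sg m ρ hρ n ξ, sum_inner, Complex.re_sum]
    have a4 : ∀ k, (inner ℂ (∫ s, lam m s ξ ∂(ρ k)) ξ : ℂ).re ≤ ‖ξ‖ ^ 2 := by
      intro k
      have := hρ k
      have b1 : ‖∫ s, lam m s ξ ∂(ρ k)‖ ≤ ‖ξ‖ := by
        have := norm_integral_le_of_norm_le_const (μ := ρ k) (f := fun s => lam m s ξ) (C := ‖ξ‖)
          (ae_of_all _ fun s => by rw [(lam m s).norm_map])
        simpa using this
      have b2 := (Complex.re_le_norm (inner ℂ (∫ s, lam m s ξ ∂(ρ k)) ξ : ℂ)).trans (norm_inner_le_norm _ _)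
      nlinarith [norm_nonneg ξ]
    have a5 : ‖ξ‖ ^ 2 - (inner ℂ (lamM m (ρ 0) ξ) ξ : ℂ).re ≤ n * ‖ξ‖ ^ 2 - (inner ℂ (lamM m (sg ρ n) ξ) ξ : ℂ).re := by
      rw [a3]
      have b3 : (n : ℝ) * ‖ξ‖ ^ 2 - ∑ k ∈ Finset.range n, (inner ℂ (∫ s, lam m s ξ ∂(ρ k)) ξ : ℂ).re =
        ∑ k ∈ Finset.range n, (‖ξ‖ ^ 2 - (inner ℂ (∫ s, lam m s ξ ∂(ρ k)) ξ : ℂ).re) := by
        rw [Finset.sum_sub_distrib]
        simp
      rw [b3]
      have b4 := Finset.single_le_sum (f := fun k => ‖ξ‖ ^ 2 - (inner ℂ (∫ s, lam m s ξ ∂(ρ k)) ξ : ℂ).re)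
        (s := Finset.range n) (fun k _ => by linarith [a4 k]) (Finset.mem_range.2 (show 0 < n by omega))
      exact b4
    have hsum : HasSum (fun k : ℕ => ((Real.exp (-(n * t)) * t ^ k / k.factorial : ℝ) : ℂ) • (lamM m (sg ρ n)) ^ k)
        (lamM m (Pn ρ n t)) := by
      have : IsFiniteMeasure (ser (sg ρ n) n t) := by
        change IsFiniteMeasure (Pn ρ n t)
        infer_instance
      exact h4 H m (sg ρ n) n t ht.le
    have a6 := h5 (Lp ℂ 2 m) (lamM m (sg ρ n)) (lamM m (Pn ρ n t)) n t (Nat.cast_nonneg n) ht hS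
      (fun x y => h3 H m (sg ρ n) hsg x y) hsum η
    rw [← hξ] at a6
    have a7 := core m ω ξ
    have a8 : C * ∫ s, ‖lam m s ξ - ξ‖ ^ 2 ∂(ρ 0) ≤ C * (2 * (‖η‖ ^ 2 / t)) := by
      refine mul_le_mul_of_nonneg_left ?_ hC0
      rw [a2]
      linarith
    have a9 : ε * ‖ξ‖ ^ 2 ≤ ε * ‖η‖ ^ 2 := mul_le_mul_of_nonneg_left (pow_le_pow_left₀ (norm_nonneg _) hξη 2) hε.le
    have e3 : (ε + 2 * C / t) * ‖η‖ ^ 2 = ε * ‖η‖ ^ 2 + C * (2 * (‖η‖ ^ 2 / t)) := by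
      field_simp
    rw [e3]
    linarith
  have hnn : 0 ≤ ε + 2 * C / t := by positivity
  have h9 : ‖lamM m (ω ∗ₘ Pn ρ n t) - lamM m (Pn ρ n t)‖ ≤ √(ε + 2 * C / t) := by
    refine ContinuousLinearMap.opNorm_le_bound _ (Real.sqrt_nonneg _) fun η => ?_
    have h10 := key η
    have h11 : ‖(lamM m (ω ∗ₘ Pn ρ n t) - lamM m (Pn ρ n t)) η‖ ^ 2 ≤ (√(ε + 2 * C / t) * ‖η‖) ^ 2 := by
      rw [mul_pow, Real.sq_sqrt hnn]
      exact h10
    exact (pow_le_pow_iff_left₀ (norm_nonneg _) (by positivity) two_ne_zero).1 h11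
  calc ‖lamM m (ω ∗ₘ Pn ρ n t) - lamM m (Pn ρ n t)‖ ^ 2 ≤ (√(ε + 2 * C / t)) ^ 2 :=
        pow_le_pow_left₀ (norm_nonneg _) h9 2
    _ = ε + 2 * C / t := Real.sq_sqrt hnn

end Pool.Agent.Q80.AC.RATEp
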