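import Pool.Agent.Q80.AC.TVC

open MeasureTheory Topology Filter
open scoped ENNReal NNReal

namespace Pool.Agent.Q80.AC.TVPp

open Pool.Agent.Q80.AC Pool.Agent.Q80.AC.TVCp

section basic

variable {X : Type} [MeasurableSpace X] {μ ν μ' ν' κ : Measure X}

theorem TV_refl [IsFiniteMeasure μ] : TV μ μ 0 := fun f _ _ => by simp

theorem TV_symm {c : ℝ} (h : TV μ ν c) : TV ν μ c := fun f hf h1 => by
  rw [abs_sub_comm]
  exact h f hf h1

theorem TV_mono {c d : ℝ} (h : TV μ ν c) (hcd : c ≤ d) : TV μ ν d := fun f hf h1 => (h f hf h1).trans hcd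

theorem TV_trans {c d : ℝ} (h : TV μ ν c) (h' : TV ν κ d) : TV μ κ (c + d) := fun f hf h1 => by
  have a := h f hf h1
  have b := h' f hf h1
  have := abs_sub_le (∫ x, f x ∂μ) (∫ x, f x ∂ν) (∫ x, f x ∂κ)
  linarith

theorem TV_add [IsFiniteMeasure μ] [IsFiniteMeasure ν] [IsFiniteMeasure μ'] [IsFiniteMeasure ν'] {c d : ℝ}
    (h : TV μ ν c) (h' : TV μ' ν' d) : TV (μ + μ') (ν + ν') (c + d) := fun f hf h1 => by
  rw [integral_add_measure (bdd_int μ f hf 1 h1) (bdd_int μ' f hf 1 h1),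
    integral_add_measure (bdd_int ν f hf 1 h1) (bdd_int ν' f hf 1 h1)]
  have a := h f hf h1
  have b := h' f hf h1
  have := abs_add_le (∫ x, f x ∂μ - ∫ x, f x ∂ν) (∫ x, f x ∂μ' - ∫ x, f x ∂ν')
  have e : ∫ x, f x ∂μ + ∫ x, f x ∂μ' - (∫ x, f x ∂ν + ∫ x, f x ∂ν') =
    (∫ x, f x ∂μ - ∫ x, f x ∂ν) + (∫ x, f x ∂μ' - ∫ x, f x ∂ν') := by ring
  rw [e]
  linarith

theorem TV_cancel [IsFiniteMeasure μ] [IsFiniteMeasure ν] [IsFiniteMeasure κ] {c : ℝ}
    (h : TV (μ + κ) (ν + κ) c) : TV μ ν c := fun f hf h1 => by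
  have a := h f hf h1
  rw [integral_add_measure (bdd_int μ f hf 1 h1) (bdd_int κ f hf 1 h1),
    integral_add_measure (bdd_int ν f hf 1 h1) (bdd_int κ f hf 1 h1)] at a
  rwa [add_sub_add_right_eq_sub] at a

theorem TV_add_right [IsFiniteMeasure μ] [IsFiniteMeasure ν] [IsFiniteMeasure κ] {c : ℝ}
    (h : TV μ ν c) : TV (μ + κ) (ν + κ) c := by
  have := TV_add h (TV_refl (μ := κ))
  rwa [add_zero] at this

end basic

theorem t_TVP (h1 : S_POW) (h2 : S_TVC) : S_TVP := by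
  intro H _ _ _ σ ρ _ _ e he hρσ hσρ k
  obtain ⟨a, ha⟩ : ∃ a, a = σ.real Set.univ := ⟨_, rfl⟩
  have ha0 : 0 ≤ a := by rw [ha]; exact measureReal_nonneg
  have hsd : (σ + Measure.dirac 1).real Set.univ = a + 1 := by
    rw [measureReal_add_apply, ha]
    simp
  have hsr : (σ + ρ).real Set.univ = a + 1 := by
    rw [measureReal_add_apply, ha]
    simp
  obtain ⟨P1, P2, P3, P4⟩ := h1 H (σ + ρ)
  obtain ⟨Q1, Q2, Q3, Q4⟩ := h1 H (σ + Measure.dirac 1)
  obtain ⟨R1, R2, R3, R4⟩ := h1 H ρ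
  rw [hsd] at Q2
  have hR2 : ∀ k, (pw ρ k).real Set.univ = 1 := fun k => by rw [R2 k]; simp
  rw [← ha]
  -- (ii)
  have ii : ∀ k : ℕ, TV (σ ∗ₘ pw ρ k) σ (k * e) := by
    intro k
    induction k with
    | zero =>
      have : σ ∗ₘ pw ρ 0 = σ := by
        change σ ∗ₘ Measure.dirac 1 = σ
        exact Measure.mconv_dirac_one σ
      rw [this]
      simpa using TV_refl (μ := σ)
    | succ k ih =>
      have := R1 k
      have e1 : σ ∗ₘ pw ρ (k + 1) = (σ ∗ₘ pw ρ k) ∗ₘ ρ := by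
        rw [R4 k, Measure.mconv_assoc]
      rw [e1]
      have h3 := (h2 H (σ ∗ₘ pw ρ k) σ ρ (k * e) ih).1
      rw [probReal_univ, mul_one] at h3
      have h4 := TV_trans h3 hσρ
      refine TV_mono h4 ?_
      push_cast
      linarith
  -- (i)
  have i : ∀ k : ℕ, TV (ρ ∗ₘ pw (σ + Measure.dirac 1) k + Measure.dirac 1)
      (pw (σ + Measure.dirac 1) k + ρ) (e * (a + 2) ^ k) := by
    intro k
    induction k with
    | zero =>
      have e1 : ρ ∗ₘ pw (σ + Measure.dirac 1) 0 + Measure.dirac 1 = pw (σ + Measure.dirac 1) 0 + ρ := by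
        change ρ ∗ₘ Measure.dirac 1 + Measure.dirac 1 = Measure.dirac 1 + ρ
        rw [Measure.mconv_dirac_one]
        exact add_comm _ _
      rw [e1]
      have : IsFiniteMeasure (pw (σ + Measure.dirac 1) 0) := Q1 0
      exact TV_mono (TV_refl (μ := pw (σ + Measure.dirac 1) 0 + ρ)) (by positivity)
    | succ k ih =>
      have := Q1 k
      have e0 : pw (σ + Measure.dirac 1) (k + 1) = σ ∗ₘ pw (σ + Measure.dirac 1) k + pw (σ + Measure.dirac 1) k := by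
        change (σ + Measure.dirac 1) ∗ₘ pw (σ + Measure.dirac 1) k = _
        rw [Measure.add_mconv, Measure.dirac_one_mconv]
      rw [e0, Measure.mconv_add, ← Measure.mconv_assoc]
      have h3 := (h2 H (ρ ∗ₘ σ) σ (pw (σ + Measure.dirac 1) k) e hρσ).1
      rw [Q2 k] at h3
      have h4 := TV_add h3 ih
      have e2 : (ρ ∗ₘ σ) ∗ₘ pw (σ + Measure.dirac 1) k + ρ ∗ₘ pw (σ + Measure.dirac 1) k + Measure.dirac 1 =
        (ρ ∗ₘ σ) ∗ₘ pw (σ + Measure.dirac 1) k + (ρ ∗ₘ pw (σ + Measure.dirac 1) k + Measure.dirac 1) := by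
        abel
      have e3 : σ ∗ₘ pw (σ + Measure.dirac 1) k + pw (σ + Measure.dirac 1) k + ρ =
        σ ∗ₘ pw (σ + Measure.dirac 1) k + (pw (σ + Measure.dirac 1) k + ρ) := by abel
      rw [e2, e3]
      refine TV_mono h4 ?_
      have h5 : (a + 1) ^ k ≤ (a + 2) ^ k := pow_le_pow_left₀ (by linarith) (by linarith) k
      have h6 : 0 ≤ (a + 2) ^ k := by positivity
      rw [pow_succ]
      nlinarith [mul_nonneg he h6, mul_nonneg (mul_nonneg he h6) ha0, mul_le_mul_of_nonneg_left h5 he]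
  induction k with
  | zero =>
    have e1 : pw (σ + ρ) 0 + Measure.dirac 1 = pw (σ + Measure.dirac 1) 0 + pw ρ 0 := rfl
    rw [e1]
    have := Q1 0
    have := R1 0
    exact TV_mono (TV_refl (μ := pw (σ + Measure.dirac 1) 0 + pw ρ 0)) (by simp)
  | succ k ih =>
    have := P1 k
    have := Q1 k
    have := R1 k
    have := P1 (k + 1)
    have := Q1 (k + 1)
    have := R1 (k + 1)
    have h3 := (h2 H (pw (σ + ρ) k + Measure.dirac 1) (pw (σ + Measure.dirac 1) k + pw ρ k) (σ + ρ) _ ih).2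
    rw [hsr, Measure.mconv_add, Measure.mconv_add, Measure.mconv_dirac_one,
      Measure.add_mconv σ ρ (pw (σ + Measure.dirac 1) k), Measure.add_mconv σ ρ (pw ρ k)] at h3
    have e0 : pw (σ + Measure.dirac 1) (k + 1) = σ ∗ₘ pw (σ + Measure.dirac 1) k + pw (σ + Measure.dirac 1) k := by
      change (σ + Measure.dirac 1) ∗ₘ pw (σ + Measure.dirac 1) k = _
      rw [Measure.add_mconv, Measure.dirac_one_mconv]
    have h4 := TV_add_right (κ := Measure.dirac 1) h3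
    have h5 := TV_add (TV_add (TV_refl (μ := σ ∗ₘ pw (σ + Measure.dirac 1) k)) (i k)) (TV_add_right (κ := pw ρ (k + 1)) (ii k))
    have e4 : σ ∗ₘ pw (σ + Measure.dirac 1) k + ρ ∗ₘ pw (σ + Measure.dirac 1) k +
        (σ ∗ₘ pw ρ k + ρ ∗ₘ pw ρ k) + Measure.dirac 1 =
        σ ∗ₘ pw (σ + Measure.dirac 1) k + (ρ ∗ₘ pw (σ + Measure.dirac 1) k + Measure.dirac 1) +
        (σ ∗ₘ pw ρ k + pw ρ (k + 1)) := by
      change _ = σ ∗ₘ pw (σ + Measure.dirac 1) k + (ρ ∗ₘ pw (σ + Measure.dirac 1) k + Measure.dirac 1) +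
        (σ ∗ₘ pw ρ k + ρ ∗ₘ pw ρ k)
      abel
    rw [e4] at h4
    have h6 := TV_trans h4 h5
    have e5 : σ ∗ₘ pw (σ + Measure.dirac 1) k + (pw (σ + Measure.dirac 1) k + ρ) + (σ + pw ρ (k + 1)) =
        pw (σ + Measure.dirac 1) (k + 1) + pw ρ (k + 1) + (σ + ρ) := by
      rw [e0]
      abel
    have e6 : (σ + ρ) ∗ₘ pw (σ + ρ) k + (σ + ρ) + Measure.dirac 1 =
        pw (σ + ρ) (k + 1) + Measure.dirac 1 + (σ + ρ) := by
      change _ = (σ + ρ) ∗ₘ pw (σ + ρ) k + Measure.dirac 1 + (σ + ρ)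
      abel
    rw [e5, e6] at h6
    refine TV_mono (TV_cancel h6) ?_
    have hk : (k : ℝ) ≤ (a + 2) ^ k := by
      have h7 : (k : ℝ) ≤ 2 ^ k := by exact_mod_cast (Nat.lt_two_pow_self (n := k)).le
      exact h7.trans (pow_le_pow_left₀ (by norm_num) (by linarith) k)
    have h8 : 0 ≤ (a + 2) ^ k := by positivity
    have h9 : 0 ≤ (k : ℝ) := Nat.cast_nonneg k
    push_cast
    rw [pow_succ]
    have h10 : (2 * (k : ℝ) * (a + 2) ^ k * (a + 1) + (0 + (a + 2) ^ k) + k) ≤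
        2 * ((k : ℝ) + 1) * ((a + 2) ^ k * (a + 2)) := by
      nlinarith [mul_nonneg h9 h8, mul_nonneg h8 ha0, mul_nonneg (mul_nonneg h9 h8) ha0]
    have h11 := mul_le_mul_of_nonneg_right h10 he
    nlinarith [h11]

end Pool.Agent.Q80.AC.TVPp
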