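import Pool.Agent.Q80.AC.Fin
import Pool.Agent.Q80.AC.TVP
import Pool.Agent.Q80.AC.RATE
import Pool.Agent.Q59.AC.SG
import Pool.Agent.Q59.AC.STEP
import Pool.Agent.Q59.AC.LIM
import Pool.Agent.Q59.AC.SHIFT
import Pool.Agent.Q59.AC.CONV
import Pool.Agent.Q59.AC.POW
import Pool.Agent.Q178.AC.TRL
import Pool.Agent.Q178.AC.LEN
import Pool.Agent.Q184.AC.TRR
import Pool.Agent.Q83.AC.SYM
import Pool.Agent.Q66.AC.SEQ
import Pool.Agent.Q66.AC.PSI
import Pool.Agent.Q71.AC_LMUL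
import Pool.Agent.Q198.AC.Lam
import Pool.Agent.Q39.AC.EN1
import Pool.Agent.Q39.AC.DOM
import Pool.Agent.Q204.AC.Mul
import Pool.Agent.Q204.AC.Exp
import Pool.Agent.Q204.AC.Bd
import Pool.Agent.Q204.AC.Kol
import Pool.Agent.Q204.AC.Fasum
import Pool.Agent.Q58.AC.COEF
import Pool.Agent.Q58.AC.FACONT
import Pool.Agent.Q93.AC.RU
import Pool.Agent.Q230.AC.IDEAL
import Pool.Agent.Q176.AC.FAID
import Pool.Agent.Q176.AC.DW
import Pool.Agent.Q63.AC.RB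
import Pool.Agent.Q63.AC.RPD
import Pool.Agent.Q63.AC.RFA
import Pool.Agent.Q63.AC.DSUP

open MeasureTheory

namespace Pool.Agent.Q80.AC.All

open Pool.Agent.Q80.AC

theorem pow : S_POW := Pool.Agent.Q59.AC.t_POW
theorem serint : S_SERINT := Pool.Agent.Q59.AC.t_SERINT
theorem serprob : S_SERPROB := Pool.Agent.Q59.AC.t_SERPROB
theorem tvc : S_TVC := TVCp.t_TVC
theorem tvp : S_TVP := TVPp.t_TVP pow tvc
theorem step : S_STEP := Pool.Agent.Q59.AC.t_STEP tvp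
theorem trl : S_TRL := Pool.Agent.Q178.AC.trl
theorem trr : S_TRR := Q184.AC.TRR.t_TRR trl
theorem sym : S_SYM := Q83.AC.SYM.t_SYM
theorem seq : S_SEQ := Q66.AC.SEQ.t_SEQ trl trr sym
theorem len : S_LEN := Pool.Agent.Q178.AC.len
theorem conv : S_CONV := Pool.Agent.Q59.AC.t_CONV step
theorem sg' : S_SG := Pool.Agent.Q59.AC.t_SG tvc
theorem acl : S_ACL := Pool.Agent.Q59.AC.t_ACL
theorem wcl : S_WCL := Pool.Agent.Q59.AC.t_WCL
theorem lmul : S_LMUL := Q71.AC_LMUL.lmul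
theorem ltv : S_LTV := Pool.Agent.Q198.AC.t_LTV
theorem lsa : S_LSA := Pool.Agent.Q198.AC.t_LSA
theorem en2 : S_EN2 := Pool.Agent.Q198.AC.t_EN2
theorem en1 : S_EN1 := Q39.AC.EN1.t_EN1
theorem dom : S_DOM := Q39.AC.DOM.t_DOM
theorem rate (h : S_LSER) : S_RATE := RATEp.t_RATE lmul ltv lsa h en1 en2 dom serprob
theorem pdmul : S_PDMUL := Pool.Agent.Q204.AC.pdmul
theorem pdlim : S_PDLIM := Pool.Agent.Q204.AC.pdlim
theorem pdexp : S_PDEXP := Pool.Agent.Q204.AC.pdexp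
theorem pdbd : S_PDBD := Pool.Agent.Q204.AC.pdbd
theorem kol : S_KOL := Pool.Agent.Q204.AC.kol
theorem fasum : S_FASUM := Pool.Agent.Q204.AC.fasum
theorem coef : S_COEF := Q58.AC.COEF.t_COEF
theorem facont : S_FACONT := Q58.AC.FACONT.t_FACONT
theorem ru : S_RU := Q93.AC.RU.t_RU
theorem ideal : S_IDEAL := Pool.Agent.Q230.AC.IDEAL.t_IDEAL kol
theorem faid : S_FAID := Pool.Agent.Q176.AC.FAID.t_FAID ideal fasum
theorem psi (h : S_U0) : S_PSI := Q66.AC.PSI.t_PSI h ru coef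
theorem rb : S_RB := Pool.Agent.Q63.AC.RB.t_RB
theorem rpd : S_RPD := Pool.Agent.Q63.AC.RPD.t_RPD pdmul pdlim pdexp rb
theorem rfa : S_RFA := Pool.Agent.Q63.AC.RFA.t_RFA pdmul pdexp rb rpd faid fasum facont
theorem dsup : S_DSUP := Pool.Agent.Q63.AC.DSUP.t_DSUP facont pdbd rb
theorem dw : S_DW := Pool.Agent.Q176.AC.DW.t_DW rb

end Pool.Agent.Q80.AC.All
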