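import Pool.Agent.Q80.AC.Defs

/-!
# Absolutely continuous convolution semigroups: statements of the parts on the dual side
-/

open MeasureTheory Topology Filter
open scoped ENNReal NNReal ComplexConjugate

noncomputable section

namespace Pool.Agent.Q80.AC

/-! ### F. Positive-definite functions -/

/-- Products of positive-definite functions are positive-definite: for fixed `x` the matrices `A = (φ(x_i⁻¹ x_j))`,
`B = (ψ(x_i⁻¹ x_j))` are positive semidefinite (a complex matrix whose quadratic form is real and `≥ 0` is Hermitian,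
polarization), `B = D* D` (Gram, e.g. `Matrix.posSemidef_iff_eq_conjTranspose_mul_self`), and
`Σ conj(c_i) c_j A_ij B_ij = Σ_k Σ_ij conj(c_i D_ki) (c_j D_kj) A_ij ≥ 0` (up to conjugations); or use the Schur product theorem of
Mathlib if it is there. -/
def S_PDMUL : Prop := ∀ (H : Type) [Group H] (φ ψ : H → ℂ), PosDef φ → PosDef ψ → PosDef fun s => φ s * ψ s

/-- Closure properties, straightforward from the definition (limits: `im = 0` and `0 ≤ re` are closed conditions). -/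
def S_PDLIM : Prop := ∀ (H : Type) [Group H], PosDef (fun _ : H => (1 : ℂ)) ∧
  (∀ (a : ℝ) (φ : H → ℂ), 0 ≤ a → PosDef φ → PosDef fun s => (a : ℂ) * φ s) ∧
  (∀ φ ψ : H → ℂ, PosDef φ → PosDef ψ → PosDef fun s => φ s + ψ s) ∧
  ∀ (φ : ℕ → H → ℂ) (ψ : H → ℂ), (∀ n, PosDef (φ n)) → (∀ s, Tendsto (fun n => φ n s) atTop (𝓝 (ψ s))) → PosDef ψ

/-- Exponentials. `g = Σ_j t^(j+1)/(j+1)! φ^j`, a limit of sums of products (`S_PDMUL`, `S_PDLIM`), and
`exp(tφ) = 1 + φ g`; `exp(t(φ-1)) = e^(-t) (1 + φ g)`. Continuity of `g`: `g(s) = G(φ(s))` with the entire function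
`G(z) = Σ t^(j+1)/(j+1)! z^j` (locally uniform convergence, `φ` is continuous). -/
def S_PDEXP : Prop := ∀ (H : Type) [Group H] [TopologicalSpace H] (φ : H → ℂ) (t : ℝ), PosDef φ → 0 ≤ t →
  PosDef (fun s => Complex.exp (t * (φ s - 1))) ∧
  ∃ g : H → ℂ, PosDef g ∧ (∀ s, Complex.exp (t * φ s) - 1 = φ s * g s) ∧ (Continuous φ → Continuous g) ∧
    (φ 1 = 1 → g 1 = (Real.exp t - 1 : ℝ))

/-- Elementary properties: `n = 1`, `x = e`, `c = 1` gives `φ(e) ≥ 0`; `n = 2`, `x = (e, x)` and `c = (1, z)` give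
`φ(x⁻¹) = conj φ(x)` and `|φ(x)| ≤ φ(e)`. -/
def S_PDBD : Prop := ∀ (H : Type) [Group H] (φ : H → ℂ), PosDef φ → (φ 1).im = 0 ∧ 0 ≤ (φ 1).re ∧
  (∀ x, φ x⁻¹ = conj (φ x)) ∧ ∀ x, ‖φ x‖ ≤ (φ 1).re

/-! ### G. Coefficients of the regular representation -/

/-- Coefficients: `φ(x_i⁻¹ x_j) = ⟨λ_(x_i) ξ, λ_(x_j) ξ⟩` (`lam m s` is a homomorphism in `s` and isometric), so the quadratic
form is `‖Σ c_i λ_(x_i) ξ‖²`; continuity: `lam_cont`; Cauchy-Schwarz. -/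
def S_COEF : Prop := ∀ (H : Type) [Group H] [TopologicalSpace H] [IsTopologicalGroup H] [LocallyCompactSpace H]
  [SecondCountableTopology H] [T2Space H] [MeasurableSpace H] [BorelSpace H] (m : Measure H) [m.IsHaarMeasure]
  (ξ η : Lp ℂ 2 m), PosDef (fun s => inner ℂ ξ (lam m s ξ)) ∧ (Continuous fun s => inner ℂ η (lam m s ξ)) ∧
  ∀ s, ‖(inner ℂ η (lam m s ξ) : ℂ)‖ ≤ ‖ξ‖ * ‖η‖

/-- Almost invariant vectors. `f` from Reiter's condition for `K` and `ε`, `ξ = √f` (real, `≥ 0`), so `⟨ξ, λ_s ξ⟩ ≥ 0` is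
real, and `1 - ⟨ξ, λ_s ξ⟩ = ‖λ_s ξ - ξ‖²/2 ≤ (1/2) ∫ |f(s⁻¹x) - f(x)| dm ≤ ε` by `|√a - √b|² ≤ |a - b|`. -/
def S_RU : Prop := ∀ (H : Type) [Group H] [TopologicalSpace H] [IsTopologicalGroup H] [LocallyCompactSpace H]
  [SecondCountableTopology H] [T2Space H] [MeasurableSpace H] [BorelSpace H] (m : Measure H) [m.IsHaarMeasure],
  Reiter m → ∀ K : Set H, IsCompact K → ∀ ε : ℝ, 0 < ε → ∃ ξ : Lp ℂ 2 m, ‖ξ‖ = 1 ∧
  (∀ s, (inner ℂ ξ (lam m s ξ) : ℂ).im = 0 ∧ 0 ≤ (inner ℂ ξ (lam m s ξ) : ℂ).re) ∧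
  ∀ s ∈ K, 1 - ε ≤ (inner ℂ ξ (lam m s ξ) : ℂ).re

/-- A function in `A(H)` separated from `1` off every neighbourhood of `e`. `V_j` a countable base of neighbourhoods of
`e`, `E_j` compact neighbourhoods (or open, finite measure) with `E_j E_j⁻¹ ⊆ V_j`, `ξ_j = 1_(E_j)/√m(E_j)`,
`u_j(s) = ⟨ξ_j, λ_s ξ_j⟩ = m(E_j ∩ sE_j)/m(E_j) ∈ [0,1]`, `= 0` for `s ∉ V_j`, and `u = Σ 2^(-j-1) u_j`
(`ξ'_j = 2^(-(j+1)/2) ξ_j` in the definition of `FA`; `S_COEF`, `S_PDLIM` for the rest). For `s ∉ V_j`: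
`u(s) ≤ 1 - 2^(-j-1)`. -/
def S_U0 : Prop := ∀ (H : Type) [Group H] [TopologicalSpace H] [IsTopologicalGroup H] [LocallyCompactSpace H]
  [SecondCountableTopology H] [T2Space H] [MeasurableSpace H] [BorelSpace H] (m : Measure H) [m.IsHaarMeasure],
  ∃ u : H → ℂ, FA m 1 u ∧ PosDef u ∧ Continuous u ∧ u 1 = 1 ∧ (∀ s, (u s).im = 0 ∧ 0 ≤ (u s).re ∧ (u s).re ≤ 1) ∧
  ∀ W ∈ 𝓝 (1 : H), ∃ δ : ℝ, 0 < δ ∧ ∀ s, s ∉ W → (u s).re ≤ 1 - δ

/-- Kolmogorov decomposition (GNS). On the finitely supported functions `H →₀ ℂ` the form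
`⟨c, d⟩ = Σ conj(c_x) d_y θ(x⁻¹ y)` is positive semidefinite; separate and complete it (`UniformSpace.Completion` /
`SeparationQuotient`, `InnerProductSpace.Core`; see `Pool.Agent` files with a GNS construction, or the
reproducing kernel Hilbert spaces of Mathlib if present) to a Hilbert space `K` with `w : H → K`,
`⟨w x, w y⟩ = θ(x⁻¹ y)`, continuous since `‖w x - w y‖² = 2θ(e) - 2 Re θ(x⁻¹y)`. The closed span of `w(H)` is separable
(`H` is separable), so it embeds isometrically into `ℓ²(ℕ)` (a countable Hilbert basis). `v x = w (x⁻¹)`. -/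
def S_KOL : Prop := ∀ (H : Type) [Group H] [TopologicalSpace H] [IsTopologicalGroup H] [SecondCountableTopology H]
  (θ : H → ℂ), PosDef θ → Continuous θ → ∃ v : H → lp (fun _ : ℕ => ℂ) 2, Continuous v ∧
  ∀ x y, (inner ℂ (v x) (v y) : ℂ) = θ (x * y⁻¹)

/-- Fell absorption. `v` from `S_KOL`, `ξ_i(x) = ξ(x) v(x)_i`, `η_i(x) = η(x) v(x)_i` (`|v(x)_i|² ≤ θ(e)`, so they are
in `L²`); `Σ_i ‖ξ_i‖² = ∫ |ξ|² Σ_i |v(x)_i|² dm = ‖ξ‖² θ(e)`, so `Σ ‖ξ_i‖‖η_i‖ ≤ ‖ξ‖‖η‖θ(e)` (Cauchy-Schwarz), and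
`Σ_i ⟨η_i, λ_s ξ_i⟩ = Σ_i ∫ conj(η(x) v(x)_i) ξ(s⁻¹x) v(s⁻¹x)_i dm(x) = ∫ conj(η(x)) ξ(s⁻¹x) θ(x (s⁻¹x)⁻¹) dm(x)
= θ(s) ⟨η, λ_s ξ⟩` (dominated convergence, `θ(x x⁻¹ s) = θ(s)`). -/
def S_IDEAL : Prop := ∀ (H : Type) [Group H] [TopologicalSpace H] [IsTopologicalGroup H] [LocallyCompactSpace H]
  [SecondCountableTopology H] [T2Space H] [MeasurableSpace H] [BorelSpace H] (m : Measure H) [m.IsHaarMeasure]
  (θ : H → ℂ) (ξ η : Lp ℂ 2 m), PosDef θ → Continuous θ →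
  FA m (‖ξ‖ * ‖η‖ * (θ 1).re) fun s => θ s * inner ℂ η (lam m s ξ)

/-- Countable sums: reindex the double sequence by `ℕ × ℕ ≃ ℕ` (`Nat.pairEquiv`); `Σ_k Σ_n ‖ξ_kn‖‖η_kn‖ ≤ Σ C_k`
(`summable_prod_of_nonneg`), and `Σ_(k,n) ⟨η_kn, λ_s ξ_kn⟩` converges absolutely. -/
def S_FASUM : Prop := ∀ (H : Type) [Group H] [MeasurableSpace H] [MeasurableMul H] (m : Measure H)
  [m.IsMulLeftInvariant] (C : ℕ → ℝ) (φ : ℕ → H → ℂ), (∀ k, FA m (C k) (φ k)) → Summable C →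
  FA m (∑' k, C k) fun s => ∑' k, φ k s

/-- Bound, scalars and continuity: Cauchy-Schwarz for each term (`lam m s` is isometric); `(aξ_n, η_n)`; uniform
convergence of a series of continuous functions (`lam_cont`, `continuous_tsum`). -/
def S_FACONT : Prop := ∀ (H : Type) [Group H] [TopologicalSpace H] [IsTopologicalGroup H] [LocallyCompactSpace H]
  [SecondCountableTopology H] [T2Space H] [MeasurableSpace H] [BorelSpace H] (m : Measure H) [m.IsHaarMeasure]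
  (C : ℝ) (φ : H → ℂ), FA m C φ → Continuous φ ∧ (∀ s, ‖φ s‖ ≤ C) ∧ ∀ a : ℂ, FA m (‖a‖ * C) fun s => a * φ s

/-- `A(H)` is an ideal: `φ = Σ ⟨η_n, λ_s ξ_n⟩`, `S_IDEAL` for each term and `S_FASUM`, then enlarge the constant. -/
def S_FAID : Prop := ∀ (H : Type) [Group H] [TopologicalSpace H] [IsTopologicalGroup H] [LocallyCompactSpace H]
  [SecondCountableTopology H] [T2Space H] [MeasurableSpace H] [BorelSpace H] (m : Measure H) [m.IsHaarMeasure]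
  (C : ℝ) (u θ : H → ℂ), FA m C u → PosDef θ → Continuous θ → FA m (C * (θ 1).re) fun s => θ s * u s

/-! ### H. The dual semigroup -/

/-- the sequences used for the dual semigroup -/
structure Good {H : Type} [Group H] [TopologicalSpace H] [MeasurableSpace H] [MeasurableMul H] (m : Measure H)
    [m.IsMulLeftInvariant] (u : ℕ → H → ℂ) : Prop where
  fa : ∀ k, FA m 1 (u k)
  pd : ∀ k, PosDef (u k)
  cont : ∀ k, Continuous (u k)
  one : ∀ k, u k 1 = 1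
  real : ∀ k s, (u k s).im = 0 ∧ 0 ≤ (u k s).re ∧ (u k s).re ≤ 1
  sep : ∀ W ∈ 𝓝 (1 : H), ∃ δ : ℝ, 0 < δ ∧ ∀ s, s ∉ W → (u 0 s).re ≤ 1 - δ
  loc : ∀ K : Set H, IsCompact K → ∃ N : ℕ, ∀ k, N ≤ k → ∀ s ∈ K, 1 - (1 / 2) ^ k ≤ (u k s).re

/-- `R_N(t, s) = exp(-t Σ_(k ≥ N) (1 - u_k(s)))` -/
def Rr {H : Type} (u : ℕ → H → ℂ) (N : ℕ) (t : ℝ) (s : H) : ℝ :=
  Real.exp (-(t * ∑' k, (1 - (u (N + k) s).re)))

/-- Existence of a good sequence in an amenable group: `u 0` from `S_U0`; for `k ≥ 1`, `u_k(s) = ⟨ξ_k, λ_s ξ_k⟩` with `ξ_k`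
from `S_RU` for the `k`-th set of a compact exhaustion (`CompactExhaustion.choice`) and `ε = 2^(-k)`; `S_COEF` for
positive-definiteness, continuity and `re ≤ 1`; `FA m 1` with the sequence `(ξ_k, 0, 0, ...)`. -/
def S_PSI : Prop := ∀ (H : Type) [Group H] [TopologicalSpace H] [IsTopologicalGroup H] [LocallyCompactSpace H]
  [SecondCountableTopology H] [T2Space H] [MeasurableSpace H] [BorelSpace H] (m : Measure H) [m.IsHaarMeasure],
  Reiter m → ∃ u : ℕ → H → ℂ, Good m u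

/-- Convergence and continuity: on a compact neighbourhood the series is dominated by `2^(-k)` from some `N` on
(`continuous_tsum` locally, `continuous_iff_continuousAt`). -/
def S_RB : Prop := ∀ (H : Type) [Group H] [TopologicalSpace H] [IsTopologicalGroup H] [LocallyCompactSpace H]
  [SecondCountableTopology H] [T2Space H] [MeasurableSpace H] [BorelSpace H] (m : Measure H) [m.IsHaarMeasure]
  (u : ℕ → H → ℂ), Good m u → (∀ s, Summable fun k => 1 - (u k s).re) ∧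
  (∀ N, Continuous fun s => ∑' k, (1 - (u (N + k) s).re)) ∧ ∀ N s, 0 ≤ ∑' k, (1 - (u (N + k) s).re)

/-- `R_N(t, ·)` is positive-definite: it is the pointwise limit of the finite products
`Π_(k<M) exp(t(u_(N+k) - 1))` (`S_PDEXP`, `S_PDMUL`, `S_PDLIM`, `S_RB`; `u_k` is real). -/
def S_RPD : Prop := ∀ (H : Type) [Group H] [TopologicalSpace H] [IsTopologicalGroup H] [LocallyCompactSpace H]
  [SecondCountableTopology H] [T2Space H] [MeasurableSpace H] [BorelSpace H] (m : Measure H) [m.IsHaarMeasure]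
  (u : ℕ → H → ℂ), Good m u → ∀ (N : ℕ) (t : ℝ), 0 ≤ t → PosDef fun s => (Rr u N t s : ℂ)

/-- `R_0(t, ·) ∈ A(H)` for `t > 0`. Telescoping: `R_k = e^(-t) (e^(t u_k) - 1) R_(k+1) + e^(-t) R_(k+1)`, so
`R_0 = Σ_(k<M) e^(-(k+1)t) (e^(t u_k) - 1) R_(k+1) + e^(-Mt) R_M`, and `|R_M| ≤ 1`, hence
`R_0 = Σ_k e^(-(k+1)t) (e^(t u_k) - 1) R_(k+1)` pointwise. `e^(t u_k) - 1 = u_k g_k` (`S_PDEXP`), `g_k R_(k+1)` is
positive-definite and continuous with value `e^t - 1` at `e` (`S_PDMUL`, `S_RPD`, `S_RB`), so the `k`-th term is in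
`FA m (e^(-(k+1)t) (e^t - 1))` (`S_FAID`, `S_FACONT`), and `Σ_k e^(-(k+1)t)(e^t - 1) = 1` (`S_FASUM`). -/
def S_RFA : Prop := ∀ (H : Type) [Group H] [TopologicalSpace H] [IsTopologicalGroup H] [LocallyCompactSpace H]
  [SecondCountableTopology H] [T2Space H] [MeasurableSpace H] [BorelSpace H] (m : Measure H) [m.IsHaarMeasure]
  (u : ℕ → H → ℂ), Good m u → ∀ t : ℝ, 0 < t → FA m 1 fun s => (Rr u 0 t s : ℂ)

/-- Behaviour for large `t`. `ω` is continuous (`S_FACONT`) and `|ω| ≤ 1` (`S_PDBD`). `W = {|ω - 1| < ε}` is a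
neighbourhood of `e`; off `W`, `R_0(t, g) ≤ exp(-t(1 - u_0(g))) ≤ e^(-tδ)` (`sep`), so
`|ω(g) R - R| ≤ max(ε, 2e^(-tδ))`. -/
def S_DSUP : Prop := ∀ (H : Type) [Group H] [TopologicalSpace H] [IsTopologicalGroup H] [LocallyCompactSpace H]
  [SecondCountableTopology H] [T2Space H] [MeasurableSpace H] [BorelSpace H] (m : Measure H) [m.IsHaarMeasure]
  (u : ℕ → H → ℂ), Good m u → ∀ (ω : H → ℂ), InFourier m ω → PosDef ω → ω 1 = 1 → ∀ ε : ℝ, 0 < ε → ∃ T : ℝ,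
  ∀ t, T ≤ t → ∀ g, ‖ω g * (Rr u 0 t g : ℂ) - (Rr u 0 t g : ℂ)‖ ≤ ε

/-- `w^*`-continuity: dominated convergence, `0 < R ≤ 1` and `R_0(t, s) → 1` as `t → 0+` (`S_RB`). -/
def S_DW : Prop := ∀ (H : Type) [Group H] [TopologicalSpace H] [IsTopologicalGroup H] [LocallyCompactSpace H]
  [SecondCountableTopology H] [T2Space H] [MeasurableSpace H] [BorelSpace H] (m : Measure H) [m.IsHaarMeasure]
  (u : ℕ → H → ℂ), Good m u → ∀ f : H → ℂ, Integrable f m →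
  Tendsto (fun t => ∫ s, (Rr u 0 t s : ℂ) * f s ∂m) (𝓝[>] 0) (𝓝 (∫ s, f s ∂m))

end Pool.Agent.Q80.AC
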