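import Pool.Agent.Q80.AC.Stm
import Pool.Agent.Q80.AC.Stm2

open MeasureTheory Topology Filter
open scoped ENNReal NNReal ComplexConjugate

namespace Pool.Agent.Q80.AC

/-- the mass of `sg ρ n` -/
theorem sg_mass {H : Type} [Group H] [MeasurableSpace H] (ρ : ℕ → Measure H)
    (hρ : ∀ n, IsProbabilityMeasure (ρ n)) (n : ℕ) : (sg ρ n).real Set.univ = n := by
  unfold sg
  induction n with
  | zero => simp
  | succ n ih =>
    have := hρ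
    rw [Finset.sum_range_succ, measureReal_add_apply, ih]
    simp

/-- the semigroups of measures, from the parts -/
theorem measures (hS : S_SEQ) (hL : S_LEN) (hC : S_CONV) (hG : S_SG) (hA : S_ACL) (hW : S_WCL)
    (hM : S_LMUL) (hT : S_LTV) (hR : S_RATE) (hD : S_TVC) (hP : S_SERPROB)
    (H : Type) [Group H] [TopologicalSpace H] [IsTopologicalGroup H] [LocallyCompactSpace H]
    [SecondCountableTopology H] [T2Space H] [MeasurableSpace H] [BorelSpace H] (m : Measure H) [m.IsHaarMeasure] :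
    ∃ μ : ℝ → Measure H, IsConvSemigroup μ ∧ WCont μ ∧ (∀ t, 0 < t → μ t ≪ m) ∧
      ∀ (ω : Measure H) [IsProbabilityMeasure ω], ω ≪ m → ∀ ε : ℝ, 0 < ε → ∃ T : ℝ, 0 < T ∧ ∀ t : ℝ, T ≤ t →
        ∀ [IsFiniteMeasure (μ t)] [IsFiniteMeasure (ω ∗ₘ μ t)], ‖lamM m (ω ∗ₘ μ t) - lamM m (μ t)‖ ≤ ε := by
  obtain ⟨L, hL1, hL2, hL3, hL4, hL5⟩ := hL H
  have hWn : ∀ n : ℕ, {x | ∀ j, j ≤ n → L j x ≤ (1 / 2) ^ n} ∈ 𝓝 (1 : H) := by
    intro n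
    have h1 : ∀ j ∈ Set.Iic n, {x | L j x < (1 / 2) ^ n} ∈ 𝓝 (1 : H) := by
      intro j _
      have h2 : Tendsto (L j) (𝓝 1) (𝓝 0) := by
        have := (hL1 j).tendsto 1
        rwa [hL3 j] at this
      exact h2 (Iio_mem_nhds (by positivity))
    have h2 := (Filter.biInter_mem (Set.finite_Iic n)).2 h1
    filter_upwards [h2] with x hx
    intro j hj
    have := Set.mem_iInter₂.1 hx j hj
    exact le_of_lt this
  obtain ⟨ρ, hρ1, hρ2, hρ3, hρ4, hρ5, hρ6⟩ := hS H m _ hWn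
  obtain ⟨μ, hμ0, hμ1, hμ2⟩ := hC H ρ hρ1 hρ6
  refine ⟨μ, hG H ρ hρ1 μ hμ0 hμ1 hμ2, hW H L hL1 hL2 hL3 hL4 hL5 ρ hρ1 hρ5 μ hμ1 hμ2,
    hA H m ρ hρ1 hρ2 μ hμ1 hμ2, ?_⟩
  intro ω _ hω ε hε
  obtain ⟨C, hC0, hC1⟩ := hR H m ρ hρ1 hρ3 ω (hω.trans hρ4) (ε ^ 2 / 8) (by positivity)
  refine ⟨8 * C / ε ^ 2 + 1, by positivity, fun t ht => ?_⟩
  intro _ _
  have ht0 : 0 < t := lt_of_lt_of_le (by positivity) ht
  have := hμ1 t ht0.le
  obtain ⟨c, hc, hc1⟩ := hμ2 t ht0.le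
  -- choose `n` with `c n ≤ ε / 8`
  obtain ⟨n, hn1, hn2⟩ : ∃ n : ℕ, 1 ≤ n ∧ c n ≤ ε / 8 := by
    have h1 := hc.eventually (Iio_mem_nhds (show (0 : ℝ) < ε / 8 by positivity))
    obtain ⟨n, hn⟩ := (h1.and (eventually_ge_atTop 1)).exists
    exact ⟨n, hn.2, le_of_lt hn.1⟩
  have hsf : IsFiniteMeasure (sg ρ n) := by
    unfold sg
    have := hρ1
    infer_instance
  have hPf : IsProbabilityMeasure (Pn ρ n t) := by
    have h := (hP H (sg ρ n) t ht0.le).1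
    rw [sg_mass ρ hρ1 n] at h
    exact h
  have h1 := hC1 n t hn1 ht0
  have hTV : TV (Pn ρ n t) (μ t) (ε / 8) := fun f hf hf1 => (hc1 n f hf hf1).trans hn2
  have h2 := (hT H m (Pn ρ n t) (μ t) (ε / 8) (by positivity)).2 hTV
  have h3 := (hD H (Pn ρ n t) (μ t) ω (ε / 8) hTV).2
  rw [probReal_univ, mul_one] at h3
  have h4 := (hT H m (ω ∗ₘ Pn ρ n t) (ω ∗ₘ μ t) (ε / 8) (by positivity)).2 h3
  have h5 : ‖lamM m (ω ∗ₘ Pn ρ n t) - lamM m (Pn ρ n t)‖ ≤ ε / 2 := by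
    have h6 : C / t ≤ ε ^ 2 / 8 := by
      rw [div_le_iff₀ ht0]
      have h7 : 8 * C / ε ^ 2 ≤ t := by linarith
      rw [div_le_iff₀ (by positivity)] at h7
      nlinarith
    have h7 : ‖lamM m (ω ∗ₘ Pn ρ n t) - lamM m (Pn ρ n t)‖ ^ 2 ≤ (ε / 2) ^ 2 := by
      refine h1.trans ?_
      nlinarith
    exact (pow_le_pow_iff_left₀ (norm_nonneg _) (by positivity) two_ne_zero).1 h7
  have e1 : lamM m (ω ∗ₘ μ t) - lamM m (μ t) =
      -(lamM m (ω ∗ₘ Pn ρ n t) - lamM m (ω ∗ₘ μ t)) + (lamM m (ω ∗ₘ Pn ρ n t) - lamM m (Pn ρ n t)) +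
        (lamM m (Pn ρ n t) - lamM m (μ t)) := by abel
  rw [e1]
  refine (norm_add₃_le).trans ?_
  rw [norm_neg]
  linarith

end Pool.Agent.Q80.AC
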