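import Mathlib

/-!
# Absolutely continuous convolution semigroups: definitions

`H` is a second countable locally compact group with left Haar measure `m`.
-/

open MeasureTheory Topology Filter
open scoped ENNReal NNReal ComplexConjugate

noncomputable section

namespace Pool.Agent.Q80.AC

/-- `μ t`, `t ≥ 0`, is a convolution semigroup of probability measures on `H`. -/
structure IsConvSemigroup {H : Type} [Group H] [MeasurableSpace H] (μ : ℝ → Measure H) : Prop where
  prob : ∀ t, 0 ≤ t → IsProbabilityMeasure (μ t)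
  zero : μ 0 = Measure.dirac 1
  add : ∀ t s, 0 ≤ t → 0 ≤ s → μ (t + s) = μ t ∗ₘ μ s

/-- `w^*`-continuity of a family of measures at `t = 0`: `∫ f dμ_t → f(e)` for all `f ∈ C_0(H)`. -/
def WCont {H : Type} [Group H] [TopologicalSpace H] [MeasurableSpace H] (μ : ℝ → Measure H) : Prop :=
  ∀ f : H → ℂ, Continuous f → Tendsto f (cocompact H) (𝓝 0) →
    Tendsto (fun t => ∫ x, f x ∂(μ t)) (𝓝[>] 0) (𝓝 (f 1))

/-- bounds for the total variation distance, tested against functions with values in `[-1,1]` -/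
def TV {X : Type} [MeasurableSpace X] (μ ν : Measure X) (c : ℝ) : Prop :=
  ∀ f : X → ℝ, Measurable f → (∀ x, |f x| ≤ 1) → |∫ x, f x ∂μ - ∫ x, f x ∂ν| ≤ c

/-- convolution powers -/
def pw {H : Type} [Group H] [MeasurableSpace H] (σ : Measure H) : ℕ → Measure H
  | 0 => Measure.dirac 1
  | k + 1 => σ ∗ₘ pw σ k

/-- `σ_n = ρ_0 + ... + ρ_(n-1)` -/
def sg {H : Type} [Group H] [MeasurableSpace H] (ρ : ℕ → Measure H) (n : ℕ) : Measure H :=
  ∑ k ∈ Finset.range n, ρ k

/-- the exponential series `e^(-a t) Σ t^k / k! σ^k` -/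
def ser {H : Type} [Group H] [MeasurableSpace H] (σ : Measure H) (a t : ℝ) : Measure H :=
  Measure.sum fun k : ℕ => ENNReal.ofReal (Real.exp (-(a * t)) * t ^ k / k.factorial) • pw σ k

/-- the compound Poisson semigroup with the jumps `ρ_0, ..., ρ_(n-1)`, each of rate one -/
def Pn {H : Type} [Group H] [MeasurableSpace H] (ρ : ℕ → Measure H) (n : ℕ) (t : ℝ) : Measure H :=
  ser (sg ρ n) n t

/-- the left regular representation on `L²(H, m; E)`: `(lam m s ξ)(x) = ξ(s⁻¹ x)` -/
def lam {H : Type} [Group H] [MeasurableSpace H] [MeasurableMul H] (m : Measure H)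
    [m.IsMulLeftInvariant] {E : Type} [NormedAddCommGroup E] [NormedSpace ℂ E] (s : H) :
    Lp E 2 m →ₗᵢ[ℂ] Lp E 2 m :=
  Lp.compMeasurePreservingₗᵢ ℂ (fun x => s⁻¹ * x) (measurePreserving_mul_left m s⁻¹)

section lamM

variable {H : Type} [Group H] [TopologicalSpace H] [IsTopologicalGroup H] [LocallyCompactSpace H]
  [SecondCountableTopology H] [T2Space H] [MeasurableSpace H] [BorelSpace H]

theorem lam_cont (m : Measure H) [m.IsHaarMeasure] (ξ : Lp ℂ 2 m) : Continuous fun s : H => lam m s ξ := by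
  have h : Continuous fun s : H => (⟨fun x => s⁻¹ * x, by fun_prop⟩ : C(H, H)) := by
    refine ContinuousMap.continuous_of_continuous_uncurry _ ?_
    simp only [Function.uncurry_def]
    exact (continuous_fst.inv.mul continuous_snd)
  exact (continuous_const (y := ξ)).compMeasurePreservingLp h
    (fun s => measurePreserving_mul_left m s⁻¹) (by simp)

theorem lam_int (m : Measure H) [m.IsHaarMeasure] (μ : Measure H) [IsFiniteMeasure μ] (ξ : Lp ℂ 2 m) :
    Integrable (fun s => lam m s ξ) μ := by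
  haveI : SecondCountableTopologyEither H (Lp ℂ 2 m) := inferInstance
  refine Integrable.of_bound (lam_cont m ξ).aestronglyMeasurable ‖ξ‖ (ae_of_all _ fun s => ?_)
  rw [(lam m s).norm_map]

/-- the operator `λ(μ) = ∫ λ_s dμ(s)` on `L²(H, m)` -/
def lamM (m : Measure H) [m.IsHaarMeasure] (μ : Measure H) [IsFiniteMeasure μ] : Lp ℂ 2 m →L[ℂ] Lp ℂ 2 m :=
  LinearMap.mkContinuous
    { toFun := fun ξ => ∫ s, lam m s ξ ∂μ
      map_add' := fun ξ η => by
        simp only [map_add]
        exact integral_add (lam_int m μ ξ) (lam_int m μ η)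
      map_smul' := fun c ξ => by
        simp only [map_smul, RingHom.id_apply]
        exact integral_smul c _ }
    (μ.real Set.univ) fun ξ => by
      refine (norm_integral_le_of_norm_le_const (C := ‖ξ‖) (ae_of_all _ fun s => ?_)).trans ?_
      · rw [(lam m s).norm_map]
      · rw [mul_comm]

theorem lamM_apply (m : Measure H) [m.IsHaarMeasure] (μ : Measure H) [IsFiniteMeasure μ] (ξ : Lp ℂ 2 m) :
    lamM m μ ξ = ∫ s, lam m s ξ ∂μ := rfl

end lamM

/-- Reiter's condition, an equivalent form of the amenability of `H`. -/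
def Reiter {H : Type} [Group H] [TopologicalSpace H] [MeasurableSpace H] (m : Measure H) : Prop :=
  ∀ K : Set H, IsCompact K → ∀ ε : ℝ, 0 < ε → ∃ f : H → ℝ, Integrable f m ∧ (∀ x, 0 ≤ f x) ∧
    ∫ x, f x ∂m = 1 ∧ ∀ s ∈ K, ∫ x, |f (s⁻¹ * x) - f x| ∂m ≤ ε

/-- positive-definite functions on `H` -/
def PosDef {H : Type} [Group H] (φ : H → ℂ) : Prop :=
  ∀ (n : ℕ) (x : Fin n → H) (c : Fin n → ℂ),
    (∑ i, ∑ j, conj (c i) * c j * φ ((x i)⁻¹ * x j)).im = 0 ∧
    0 ≤ (∑ i, ∑ j, conj (c i) * c j * φ ((x i)⁻¹ * x j)).re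

/-- `φ` is a sum of coefficient functions of the left regular representation, of total norm at most `C` -/
def FA {H : Type} [Group H] [MeasurableSpace H] [MeasurableMul H] (m : Measure H)
    [m.IsMulLeftInvariant] (C : ℝ) (φ : H → ℂ) : Prop :=
  ∃ ξ η : ℕ → Lp ℂ 2 m, Summable (fun n => ‖ξ n‖ * ‖η n‖) ∧ ∑' n, ‖ξ n‖ * ‖η n‖ ≤ C ∧
    ∀ s, φ s = ∑' n, inner ℂ (η n) (lam m s (ξ n))

/-- The Fourier algebra `A(H)`: the functions `s ↦ Σ_n ⟨λ_s ξ_n, η_n⟩` with `Σ ‖ξ_n‖ ‖η_n‖ < ∞`. -/
def InFourier {H : Type} [Group H] [MeasurableSpace H] [MeasurableMul H] (m : Measure H)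
    [m.IsMulLeftInvariant] (φ : H → ℂ) : Prop := ∃ C : ℝ, FA m C φ

end Pool.Agent.Q80.AC
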