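import Pool.Agent.Q80.AC.Asm

open MeasureTheory Topology Filter
open scoped ENNReal NNReal ComplexConjugate

noncomputable section

namespace Pool.Agent.Q80.AC

open Classical in
/-- the operator `λ(μ) = ∫ λ_s dμ(s)` on `L²(H, m)` for a finite measure `μ` -/
def lambdaOp {H : Type} [Group H] [TopologicalSpace H] [IsTopologicalGroup H] [LocallyCompactSpace H]
    [SecondCountableTopology H] [T2Space H] [MeasurableSpace H] [BorelSpace H] (m : Measure H) [m.IsHaarMeasure]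
    (μ : Measure H) : Lp ℂ 2 m →L[ℂ] Lp ℂ 2 m :=
  if _h : IsFiniteMeasure μ then lamM m μ else 0

theorem lambdaOp_eq {H : Type} [Group H] [TopologicalSpace H] [IsTopologicalGroup H] [LocallyCompactSpace H]
    [SecondCountableTopology H] [T2Space H] [MeasurableSpace H] [BorelSpace H] (m : Measure H) [m.IsHaarMeasure]
    (μ : Measure H) [h : IsFiniteMeasure μ] : lambdaOp m μ = lamM m μ := by
  unfold lambdaOp
  rw [dif_pos h]

/-- a convolution semigroup on the dual of `H` -/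
structure IsDualSemigroup {H : Type} [Group H] [TopologicalSpace H] (φ : ℝ → H → ℂ) : Prop where
  cont : ∀ t, 0 ≤ t → Continuous (φ t)
  pos : ∀ t, 0 ≤ t → PosDef (φ t)
  one : ∀ t, 0 ≤ t → φ t 1 = 1
  add : ∀ t s, 0 ≤ t → 0 ≤ s → ∀ g, φ (t + s) g = φ t g * φ s g
  zero : ∀ g, φ 0 g = 1

/-- the statement of Q1 and Q2 (a) -/
def MeasureSide {H : Type} [Group H] [TopologicalSpace H] [IsTopologicalGroup H] [LocallyCompactSpace H]
    [SecondCountableTopology H] [T2Space H] [MeasurableSpace H] [BorelSpace H] (m : Measure H) [m.IsHaarMeasure] :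
    Prop :=
  ∃ μ : ℝ → Measure H, IsConvSemigroup μ ∧ WCont μ ∧ (∀ t, 0 < t → μ t ≪ m) ∧
    (∀ ω : Measure H, IsProbabilityMeasure ω → ω ≪ m →
      Tendsto (fun t => ‖lambdaOp m (ω ∗ₘ μ t) - lambdaOp m (μ t)‖) atTop (𝓝 0)) ∧
    (Reiter m → ∀ t, 0 < t → ‖lambdaOp m (μ t)‖ = 1)

/-- the statement of Q2 (b) -/
def DualSide {H : Type} [Group H] [TopologicalSpace H] [MeasurableSpace H] [MeasurableMul H] (m : Measure H)
    [m.IsMulLeftInvariant] : Prop :=
  ∃ φ : ℝ → H → ℂ, IsDualSemigroup φ ∧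
    (∀ f : H → ℂ, Integrable f m → Tendsto (fun t => ∫ s, φ t s * f s ∂m) (𝓝[>] 0) (𝓝 (∫ s, f s ∂m))) ∧
    (∀ t, 0 < t → InFourier m (φ t)) ∧
    ∀ ω : H → ℂ, InFourier m ω → PosDef ω → ω 1 = 1 → ∀ ε : ℝ, 0 < ε → ∃ T : ℝ, ∀ t, T ≤ t → ∀ g,
      ‖ω g * φ t g - φ t g‖ ≤ ε

theorem fin_mconv {H : Type} [Group H] [MeasurableSpace H] [MeasurableMul₂ H] (μ ν : Measure H)
    [IsFiniteMeasure μ] [IsFiniteMeasure ν] : IsFiniteMeasure (μ ∗ₘ ν) := by
  infer_instance

theorem side1 (hS : S_SEQ) (hL : S_LEN) (hC : S_CONV) (hG : S_SG) (hA : S_ACL) (hW : S_WCL)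
    (hM : S_LMUL) (hT : S_LTV) (hR : S_RATE) (hD : S_TVC) (hP : S_SERPROB) (hN : S_AMN)
    (H : Type) [Group H] [TopologicalSpace H] [IsTopologicalGroup H] [LocallyCompactSpace H]
    [SecondCountableTopology H] [T2Space H] [MeasurableSpace H] [BorelSpace H] (m : Measure H) [m.IsHaarMeasure] :
    MeasureSide m := by
  obtain ⟨μ, h1, h2, h3, h4⟩ := measures hS hL hC hG hA hW hM hT hR hD hP H m
  refine ⟨μ, h1, h2, h3, ?_, ?_⟩
  · intro ω hω hωm
    rw [Metric.tendsto_atTop]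
    intro ε hε
    obtain ⟨T, hT0, hT1⟩ := h4 ω hωm (ε / 2) (by positivity)
    refine ⟨T, fun t ht => ?_⟩
    have hp := h1.prob t (hT0.le.trans ht)
    have h5 := hT1 t ht
    rw [dist_zero_right, norm_norm, lambdaOp_eq, lambdaOp_eq]
    linarith
  · intro hRe t ht
    have hp := h1.prob t ht.le
    rw [lambdaOp_eq]
    exact hN H m (μ t) hRe

theorem side2 (hP : S_PSI) (hB : S_RB) (hR : S_RPD) (hF : S_RFA) (hD : S_DSUP) (hW : S_DW)
    (H : Type) [Group H] [TopologicalSpace H] [IsTopologicalGroup H] [LocallyCompactSpace H]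
    [SecondCountableTopology H] [T2Space H] [MeasurableSpace H] [BorelSpace H] (m : Measure H) [m.IsHaarMeasure]
    (hRe : Reiter m) : DualSide m := by
  obtain ⟨u, hu⟩ := hP H m hRe
  obtain ⟨hb1, hb2, hb3⟩ := hB H m u hu
  refine ⟨fun t g => (Rr u 0 t g : ℂ), ⟨?_, ?_, ?_, ?_, ?_⟩, ?_, ?_, ?_⟩
  · intro t _
    have h := hb2 0
    unfold Rr
    exact Complex.continuous_ofReal.comp (Real.continuous_exp.comp (continuous_const.mul h).neg)
  · intro t ht
    exact hR H m u hu 0 t ht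
  · intro t _
    simp [Rr, hu.one]
  · intro t s _ _ g
    simp only [Rr]
    rw [← Complex.ofReal_mul, ← Real.exp_add]
    congr 2
    ring
  · intro g
    simp [Rr]
  · intro f hf
    exact hW H m u hu f hf
  · intro t ht
    exact ⟨1, hF H m u hu t ht⟩
  · intro ω hω hpd h1 ε hε
    exact hD H m u hu ω hω hpd h1 ε hε

end Pool.Agent.Q80.AC
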