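import Pool.Agent.Q80.AC.Fin

/-!
# Short forms of the statements (for printing)
-/

open MeasureTheory Topology Filter
open scoped ENNReal NNReal ComplexConjugate

noncomputable section

namespace Pool.Agent.Q80.AC

/-- the Hilbert space `L²(H, m)` -/
def L2 {H : Type} [MeasurableSpace H] (m : Measure H) : Type := Lp ℂ 2 m

instance {H : Type} [MeasurableSpace H] (m : Measure H) : NormedAddCommGroup (L2 m) :=
  inferInstanceAs (NormedAddCommGroup (Lp ℂ 2 m))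

instance {H : Type} [MeasurableSpace H] (m : Measure H) : InnerProductSpace ℂ (L2 m) :=
  inferInstanceAs (InnerProductSpace ℂ (Lp ℂ 2 m))

instance {H : Type} [MeasurableSpace H] (m : Measure H) : NormedSpace ℝ (L2 m) :=
  inferInstanceAs (NormedSpace ℝ (Lp ℂ 2 m))

instance {H : Type} [MeasurableSpace H] (m : Measure H) : CompleteSpace (L2 m) :=
  inferInstanceAs (CompleteSpace (Lp ℂ 2 m))

/-- left translation: `(trans m s ξ)(x) = ξ(s⁻¹ x)` -/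
def trans {H : Type} [Group H] [MeasurableSpace H] [MeasurableMul H] (m : Measure H) [m.IsMulLeftInvariant]
    (s : H) (ξ : L2 m) : L2 m :=
  Lp.compMeasurePreserving (E := ℂ) (p := 2) (fun x => s⁻¹ * x) (measurePreserving_mul_left m s⁻¹) ξ

/-- `λ(μ) ξ = ∫ λ_s ξ dμ(s)` -/
def lamV {H : Type} [Group H] [MeasurableSpace H] [MeasurableMul H] (m : Measure H) [m.IsMulLeftInvariant]
    (μ : Measure H) (ξ : L2 m) : L2 m :=
  ∫ s, trans m s ξ ∂μ

/-- the operator `λ(μ)` has norm `c` -/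
def LamNorm {H : Type} [Group H] [MeasurableSpace H] [MeasurableMul H] (m : Measure H) [m.IsMulLeftInvariant]
    (μ : Measure H) (c : ℝ) : Prop :=
  IsLUB {x : ℝ | ∃ ξ : L2 m, ‖ξ‖ ≤ 1 ∧ x = ‖lamV m μ ξ‖} c

/-- `‖λ(μ) - λ(ν)‖ ≤ c` -/
def LamClose {H : Type} [Group H] [MeasurableSpace H] [MeasurableMul H] (m : Measure H) [m.IsMulLeftInvariant]
    (μ ν : Measure H) (c : ℝ) : Prop :=
  ∀ ξ : L2 m, ‖lamV m μ ξ - lamV m ν ξ‖ ≤ c * ‖ξ‖

/-- The Fourier algebra `A(H)`: the functions `s ↦ Σ_n ⟨λ_s ξ_n, η_n⟩` with `Σ ‖ξ_n‖ ‖η_n‖ < ∞`. -/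
def InA {H : Type} [Group H] [MeasurableSpace H] [MeasurableMul H] (m : Measure H)
    [m.IsMulLeftInvariant] (φ : H → ℂ) : Prop :=
  ∃ ξ η : ℕ → L2 m, Summable (fun n => ‖ξ n‖ * ‖η n‖) ∧
    ∀ s, φ s = ∑' n, inner ℂ (η n) (trans m s (ξ n))

/-- the statement of Q1 and Q2 (a) -/
def Side1 {H : Type} [Group H] [TopologicalSpace H] [MeasurableSpace H] [MeasurableMul H] (m : Measure H)
    [m.IsMulLeftInvariant] : Prop :=
  ∃ μ : ℝ → Measure H, IsConvSemigroup μ ∧ WCont μ ∧ (∀ t, 0 < t → μ t ≪ m) ∧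
    (∀ ω : Measure H, IsProbabilityMeasure ω → ω ≪ m → ∀ ε : ℝ, 0 < ε → ∃ T : ℝ, ∀ t, T ≤ t →
      LamClose m (ω ∗ₘ μ t) (μ t) ε) ∧
    (Reiter m → ∀ t, 0 < t → LamNorm m (μ t) 1)

/-- the statement of Q2 (b) -/
def Side2 {H : Type} [Group H] [TopologicalSpace H] [MeasurableSpace H] [MeasurableMul H] (m : Measure H)
    [m.IsMulLeftInvariant] : Prop :=
  ∃ φ : ℝ → H → ℂ, IsDualSemigroup φ ∧
    (∀ f : H → ℂ, Integrable f m → Tendsto (fun t => ∫ s, φ t s * f s ∂m) (𝓝[>] 0) (𝓝 (∫ s, f s ∂m))) ∧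
    (∀ t, 0 < t → InA m (φ t)) ∧
    ∀ ω : H → ℂ, InA m ω → PosDef ω → ω 1 = 1 → ∀ ε : ℝ, 0 < ε → ∃ T : ℝ, ∀ t, T ≤ t → ∀ g,
      ‖ω g * φ t g - φ t g‖ ≤ ε

section

variable {H : Type} [Group H] [TopologicalSpace H] [IsTopologicalGroup H] [LocallyCompactSpace H]
  [SecondCountableTopology H] [T2Space H] [MeasurableSpace H] [BorelSpace H] (m : Measure H) [m.IsHaarMeasure]

theorem inA_iff (φ : H → ℂ) : InA m φ ↔ InFourier m φ := by
  constructor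
  · rintro ⟨ξ, η, h1, h2⟩
    exact ⟨∑' n, ‖ξ n‖ * ‖η n‖, ξ, η, h1, le_rfl, h2⟩
  · rintro ⟨C, ξ, η, h1, _, h2⟩
    exact ⟨ξ, η, h1, h2⟩

theorem lamV_eq (μ : Measure H) [IsFiniteMeasure μ] (ξ : L2 m) : lamV m μ ξ = lamM m μ ξ := rfl

theorem side1_of (h : MeasureSide m) : Side1 m := by
  obtain ⟨μ, h1, h2, h3, h4, h5⟩ := h
  refine ⟨μ, h1, h2, h3, ?_, ?_⟩
  · intro ω hω hωm ε hε
    have h6 := (Metric.tendsto_atTop.1 (h4 ω hω hωm)) ε hε
    obtain ⟨T, hT⟩ := h6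
    refine ⟨max T 0, fun t ht ξ => ?_⟩
    have hp := h1.prob t ((le_max_right _ _).trans ht)
    have h7 := hT t ((le_max_left _ _).trans ht)
    rw [dist_zero_right, norm_norm, lambdaOp_eq, lambdaOp_eq] at h7
    have h8 : lamV m (ω ∗ₘ μ t) ξ - lamV m (μ t) ξ = (lamM m (ω ∗ₘ μ t) - lamM m (μ t)) ξ := rfl
    rw [h8]
    refine ((lamM m (ω ∗ₘ μ t) - lamM m (μ t)).le_opNorm ξ).trans ?_
    exact mul_le_mul_of_nonneg_right h7.le (norm_nonneg _)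
  · intro hRe t ht
    have hp := h1.prob t ht.le
    have h6 := h5 hRe t ht
    rw [lambdaOp_eq] at h6
    constructor
    · rintro x ⟨ξ, hξ, rfl⟩
      have h7 : ‖lamM m (μ t) ξ‖ ≤ ‖lamM m (μ t)‖ * ‖(show Lp ℂ 2 m from ξ)‖ := (lamM m (μ t)).le_opNorm ξ
      rw [h6, one_mul] at h7
      exact h7.trans hξ
    · intro b hb
      have hb0 : 0 ≤ b := by
        have := hb ⟨(0 : L2 m), by simp, rfl⟩
        exact (norm_nonneg _).trans this
      rw [← h6]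
      refine ContinuousLinearMap.opNorm_le_of_unit_norm (𝕜 := ℂ) hb0 fun ξ hξ => ?_
      exact hb ⟨ξ, hξ.le, rfl⟩

theorem side2_of (h : DualSide m) : Side2 m := by
  obtain ⟨φ, h1, h2, h3, h4⟩ := h
  exact ⟨φ, h1, h2, fun t ht => (inA_iff m _).2 (h3 t ht), fun ω hω => h4 ω ((inA_iff m _).1 hω)⟩

end

end Pool.Agent.Q80.AC
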