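import Pool.Agent.Q80.AC.Stm

open MeasureTheory Topology Filter
open scoped ENNReal NNReal

namespace Pool.Agent.Q80.AC.TVCp

open Pool.Agent.Q80.AC

theorem bdd_int {X : Type} [MeasurableSpace X] (μ : Measure X) [IsFiniteMeasure μ] (f : X → ℝ)
    (hf : Measurable f) (C : ℝ) (hC : ∀ x, |f x| ≤ C) : Integrable f μ :=
  Integrable.of_bound hf.aestronglyMeasurable C (ae_of_all _ fun x => by simpa using hC x)

theorem int_mconv {H : Type} [Group H] [MeasurableSpace H] [MeasurableMul₂ H] (μ ν : Measure H)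
    [IsFiniteMeasure μ] [IsFiniteMeasure ν] (f : H → ℝ) (hf : Measurable f) (C : ℝ) (hC : ∀ x, |f x| ≤ C) :
    ∫ x, f x ∂(μ ∗ₘ ν) = ∫ x, ∫ y, f (x * y) ∂ν ∂μ ∧ ∫ x, f x ∂(μ ∗ₘ ν) = ∫ y, ∫ x, f (x * y) ∂μ ∂ν := by
  have hm : Measurable fun p : H × H => f (p.1 * p.2) := hf.comp (measurable_fst.mul measurable_snd)
  have hi : Integrable (fun p : H × H => f (p.1 * p.2)) (μ.prod ν) :=
    bdd_int (μ.prod ν) _ hm C fun p => hC _
  have e : ∫ x, f x ∂(μ ∗ₘ ν) = ∫ p : H × H, f (p.1 * p.2) ∂(μ.prod ν) := by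
    unfold Measure.mconv
    have hq : Measurable fun p : H × H => p.1 * p.2 := measurable_fst.mul measurable_snd
    rw [integral_map hq.aemeasurable hf.aestronglyMeasurable]
  refine ⟨?_, ?_⟩
  · rw [e, integral_prod _ hi]
  · rw [e, integral_prod_symm _ hi]

theorem meas_in {H : Type} [Group H] [MeasurableSpace H] [MeasurableMul₂ H] (μ : Measure H)
    [IsFiniteMeasure μ] (f : H → ℝ) (hf : Measurable f) :
    Measurable (fun y => ∫ x, f (x * y) ∂μ) ∧ Measurable (fun x => ∫ y, f (x * y) ∂μ) := by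
  have hm : Measurable fun p : H × H => f (p.1 * p.2) := hf.comp (measurable_fst.mul measurable_snd)
  constructor
  · have := hm.stronglyMeasurable.integral_prod_left' (μ := μ)
    exact this.measurable
  · have := hm.stronglyMeasurable.integral_prod_right' (ν := μ)
    exact this.measurable

theorem t_TVC : S_TVC := by
  intro H _ _ _ μ μ' ν _ _ _ c h
  have key : ∀ g g' : H → ℝ, Measurable g → Measurable g' → (∀ y, |g y| ≤ μ.real Set.univ) →
      (∀ y, |g' y| ≤ μ'.real Set.univ) → (∀ y, |g y - g' y| ≤ c) →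
      |∫ y, g y ∂ν - ∫ y, g' y ∂ν| ≤ c * ν.real Set.univ := by
    intro g g' hg hg' hb hb' hc
    rw [← integral_sub (bdd_int ν g hg _ hb) (bdd_int ν g' hg' _ hb')]
    have := norm_integral_le_of_norm_le_const (μ := ν) (f := fun y => g y - g' y) (C := c)
      (ae_of_all _ fun y => by simpa using hc y)
    simpa using this
  have hbd : ∀ (κ : Measure H) [IsFiniteMeasure κ] (g : H → ℝ), (∀ x, |g x| ≤ 1) → |∫ x, g x ∂κ| ≤ κ.real Set.univ := by
    intro κ _ g hg
    have := norm_integral_le_of_norm_le_const (μ := κ) (f := g) (C := 1) (ae_of_all _ fun y => by simpa using hg y)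
    simpa using this
  refine ⟨fun f hf hf1 => ?_, fun f hf hf1 => ?_⟩
  · rw [(int_mconv μ ν f hf 1 hf1).2, (int_mconv μ' ν f hf 1 hf1).2]
    refine key _ _ (meas_in μ f hf).1 (meas_in μ' f hf).1 (fun y => hbd μ _ fun x => hf1 _)
      (fun y => hbd μ' _ fun x => hf1 _) fun y => ?_
    exact h (fun x => f (x * y)) (hf.comp (measurable_id.mul_const y)) fun x => hf1 _
  · rw [(int_mconv ν μ f hf 1 hf1).1, (int_mconv ν μ' f hf 1 hf1).1]
    refine key _ _ (meas_in μ f hf).2 (meas_in μ' f hf).2 (fun y => hbd μ _ fun x => hf1 _)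
      (fun y => hbd μ' _ fun x => hf1 _) fun y => ?_
    exact h (fun x => f (y * x)) (hf.comp (measurable_id.const_mul y)) fun x => hf1 _

end Pool.Agent.Q80.AC.TVCp
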